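import Mathlib

open Finset

namespace Pool.Agent.Work.MP_cfbcde_co

section bern

variable {V : Type*} [Fintype V] [DecidableEq V]

/-- Bernoulli weight of `A`. -/
noncomputable def bw (p : ℝ) (A : Finset V) : ℝ := p ^ A.card * (1 - p) ^ Aᶜ.card

theorem bw_nonneg {p : ℝ} (h0 : 0 ≤ p) (h1 : p ≤ 1) (A : Finset V) : 0 ≤ bw p A := by
  unfold bw
  have : 0 ≤ 1 - p := by linarith
  positivity

theorem bw_sum_cond (p : ℝ) (S R : Finset V) (hSR : Disjoint S R) :
    ∑ A : Finset V, (if S ⊆ A ∧ Disjoint R A then bw p A else 0)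
      = p ^ S.card * (1 - p) ^ R.card := by
  classical
  have h := Fintype.prod_add (fun v : V => if v ∈ R then (0 : ℝ) else p)
    (fun v => if v ∈ S then (0 : ℝ) else 1 - p)
  have hL : ∏ a, ((if a ∈ R then (0 : ℝ) else p) + (if a ∈ S then (0 : ℝ) else 1 - p)) =
      p ^ S.card * (1 - p) ^ R.card := by
    have h1 : ∀ a : V, ((if a ∈ R then (0 : ℝ) else p) + (if a ∈ S then (0 : ℝ) else 1 - p)) =
        (if a ∈ S then p else 1) * (if a ∈ R then (1 - p) else 1) := by
      intro a
      by_cases hS : a ∈ S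
      · have hR : a ∉ R := Finset.disjoint_left.1 hSR hS
        simp [hS, hR]
      · by_cases hR : a ∈ R
        · simp [hS, hR]
        · simp [hS, hR]
    rw [Finset.prod_congr rfl fun a _ => h1 a, Finset.prod_mul_distrib]
    simp [Finset.prod_ite_mem]
  rw [← hL, h]
  apply Finset.sum_congr rfl
  intro A _
  by_cases hS : S ⊆ A
  · by_cases hR : Disjoint R A
    · rw [if_pos ⟨hS, hR⟩]
      have e1 : ∏ a ∈ A, (if a ∈ R then (0 : ℝ) else p) = p ^ A.card := by
        rw [Finset.prod_congr rfl (g := fun _ => p), Finset.prod_const]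
        intro a ha
        rw [if_neg (Finset.disjoint_right.1 hR ha)]
      have e2 : ∏ a ∈ Aᶜ, (if a ∈ S then (0 : ℝ) else 1 - p) = (1 - p) ^ Aᶜ.card := by
        rw [Finset.prod_congr rfl (g := fun _ => (1 - p)), Finset.prod_const]
        intro a ha
        rw [if_neg]
        intro haS
        exact (Finset.mem_compl.1 ha) (hS haS)
      rw [e1, e2]
      rfl
    · rw [if_neg (fun h => hR h.2)]
      rw [Finset.not_disjoint_iff] at hR
      obtain ⟨a, haR, haA⟩ := hR
      rw [Finset.prod_eq_zero haA (by simp [haR])]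
      simp
  · rw [if_neg (fun h => hS h.1)]
    rw [Finset.not_subset] at hS
    obtain ⟨a, haS, haA⟩ := hS
    rw [Finset.prod_eq_zero (s := Aᶜ) (Finset.mem_compl.2 haA) (by simp [haS])]
    simp

theorem bw_sum (p : ℝ) : ∑ A : Finset V, bw p A = 1 := by
  have h := bw_sum_cond (V := V) p ∅ ∅ (by simp)
  simpa using h

/-- expected size -/
theorem bw_sum_card (p : ℝ) :
    ∑ A : Finset V, bw p A * (A.card : ℝ) = Fintype.card V * p := by
  classical
  have h1 : ∀ A : Finset V, bw p A * (A.card : ℝ) =
      ∑ v : V, (if ({v} : Finset V) ⊆ A ∧ Disjoint (∅ : Finset V) A then bw p A else 0) := by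
    intro A
    simp only [Finset.singleton_subset_iff, Finset.disjoint_empty_left, and_true]
    rw [← Finset.sum_filter, Finset.sum_const]
    simp [mul_comm]
  rw [Finset.sum_congr rfl fun A _ => h1 A, Finset.sum_comm]
  rw [Finset.sum_congr rfl fun v _ => bw_sum_cond p {v} ∅ (by simp)]
  simp

/-- expected number of ordered pairs from `P` (off-diagonal) inside `A` -/
theorem bw_sum_pairs (p : ℝ) (P : Finset (V × V)) (hP : ∀ x ∈ P, x.1 ≠ x.2) :
    ∑ A : Finset V, bw p A * ((P.filter fun x => x.1 ∈ A ∧ x.2 ∈ A).card : ℝ) =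
      P.card * p ^ 2 := by
  classical
  have h1 : ∀ A : Finset V, bw p A * ((P.filter fun x => x.1 ∈ A ∧ x.2 ∈ A).card : ℝ) =
      ∑ x ∈ P, (if ({x.1, x.2} : Finset V) ⊆ A ∧ Disjoint (∅ : Finset V) A
        then bw p A else 0) := by
    intro A
    simp only [Finset.insert_subset_iff, Finset.singleton_subset_iff,
      Finset.disjoint_empty_left, and_true]
    rw [← Finset.sum_filter, Finset.sum_const]
    simp [mul_comm]
  rw [Finset.sum_congr rfl fun A _ => h1 A, Finset.sum_comm]
  rw [Finset.sum_congr rfl fun x _ => bw_sum_cond p {x.1, x.2} ∅ (by simp)]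
  rw [Finset.sum_congr rfl (g := fun _ => p ^ 2)]
  · simp
  · intro x hx
    rw [Finset.card_pair (hP x hx)]
    simp

end bern

section perm

/-- The active set at time `t`. -/
def act {n : ℕ} (σ : Equiv.Perm (Fin n)) (t : ℕ) : Finset (Fin n) :=
  univ.filter fun v => ((σ.symm v : Fin n) : ℕ) < t

theorem act_card {n : ℕ} (σ : Equiv.Perm (Fin n)) (t : ℕ) (ht : t ≤ n) : (act σ t).card = t := by
  have h : (act σ t) = (univ.filter fun i : Fin n => (i : ℕ) < t).map σ.toEmbedding := by
    ext v
    simp only [act, mem_filter, mem_univ, true_and, mem_map, Equiv.coe_toEmbedding]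
    constructor
    · intro h
      exact ⟨σ.symm v, h, by simp⟩
    · rintro ⟨i, hi, rfl⟩
      simpa using hi
  rw [h, Finset.card_map]
  rw [Fin.card_filter_val_lt]
  exact min_eq_right ht

theorem act_mul {n : ℕ} (π σ : Equiv.Perm (Fin n)) (t : ℕ) :
    act (π * σ) t = (act σ t).map π.toEmbedding := by
  ext v
  simp only [act, mem_filter, mem_univ, true_and, mem_map, Equiv.coe_toEmbedding]
  constructor
  · intro h
    exact ⟨π.symm v, h, by simp⟩
  · rintro ⟨w, hw, rfl⟩
    show ((σ.symm (π.symm (π w)) : Fin n) : ℕ) < t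
    simpa using hw

theorem perm_count {n : ℕ} (t : ℕ) (A B : Finset (Fin n)) (hA : A.card = t) (hB : B.card = t) :
    (univ.filter fun σ : Equiv.Perm (Fin n) => act σ t = A).card =
      (univ.filter fun σ : Equiv.Perm (Fin n) => act σ t = B).card := by
  classical
  have htr := Set.powersetCard.isPretransitive (α := Fin n) (n := t)
  obtain ⟨π, hπ⟩ := htr.exists_smul_eq ⟨A, hA⟩ ⟨B, hB⟩
  have hπ' : A.map π.toEmbedding = B := by
    have := congrArg (fun x : Set.powersetCard (Fin n) t => (x : Finset (Fin n))) hπ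
    simp only [Set.powersetCard.coe_smul] at this
    rw [← this, Finset.map_eq_image]
    rfl
  apply Finset.card_bij (fun σ _ => π * σ)
  · intro σ hσ
    simp only [mem_filter, mem_univ, true_and] at hσ ⊢
    rw [act_mul, hσ, hπ']
  · intro σ _ σ' _ h
    exact mul_left_cancel h
  · intro σ hσ
    refine ⟨π⁻¹ * σ, ?_, by simp⟩
    simp only [mem_filter, mem_univ, true_and] at hσ ⊢
    have : (act (π⁻¹ * σ) t).map π.toEmbedding = A.map π.toEmbedding := by
      rw [← act_mul, mul_inv_cancel_left, hσ, hπ']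
    exact Finset.map_injective _ this

theorem perm_avg {n : ℕ} (t : ℕ) (ht : t ≤ n) (f : Finset (Fin n) → ℝ) :
    (n.choose t : ℝ) * ∑ σ : Equiv.Perm (Fin n), f (act σ t) =
      (n.factorial : ℝ) * ∑ A ∈ powersetCard t (univ : Finset (Fin n)), f A := by
  classical
  obtain ⟨A0, _, hA0⟩ := Finset.exists_subset_card_eq (s := (univ : Finset (Fin n))) (n := t)
    (by simpa using ht)
  set c := (univ.filter fun σ : Equiv.Perm (Fin n) => act σ t = A0).card with hc
  have h1 : ∀ g : Finset (Fin n) → ℝ, ∑ σ : Equiv.Perm (Fin n), g (act σ t) =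
      c * ∑ A ∈ powersetCard t (univ : Finset (Fin n)), g A := by
    intro g
    have h2 := Finset.sum_fiberwise_of_maps_to (s := (univ : Finset (Equiv.Perm (Fin n))))
      (t := powersetCard t (univ : Finset (Fin n))) (g := fun σ => act σ t)
      (fun σ _ => by
        rw [Finset.mem_powersetCard]
        exact ⟨Finset.subset_univ _, act_card σ t ht⟩) (fun σ => g (act σ t))
    rw [← h2, Finset.mul_sum]
    apply Finset.sum_congr rfl
    intro A hA
    rw [Finset.mem_powersetCard] at hA
    rw [hc, perm_count t A0 A hA0 hA.2]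
    rw [Finset.sum_congr rfl (g := fun _ => g A)]
    · simp
    · intro σ hσ
      rw [(Finset.mem_filter.1 hσ).2]
  have h3 := h1 (fun _ => 1)
  simp only [Finset.sum_const, Finset.card_univ, Finset.card_powersetCard, Fintype.card_fin,
    Fintype.card_perm, nsmul_eq_mul, mul_one] at h3
  rw [h1 f, h3]
  ring

/-- Regrouping a Bernoulli expectation by cardinality, using uniform orderings. -/
theorem bw_expect {n : ℕ} (p : ℝ) (f : Finset (Fin n) → ℝ) :
    ∑ A : Finset (Fin n), bw p A * f A =
      ∑ t ∈ range (n + 1), ((n.choose t : ℝ) * p ^ t * (1 - p) ^ (n - t)) *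
        ((∑ σ : Equiv.Perm (Fin n), f (act σ t)) / (n.factorial : ℝ)) := by
  classical
  have h1 : ∑ A : Finset (Fin n), bw p A * f A =
      ∑ t ∈ range (n + 1), ∑ A ∈ powersetCard t (univ : Finset (Fin n)), bw p A * f A := by
    have := Finset.sum_powerset (s := (univ : Finset (Fin n))) (f := fun A => bw p A * f A)
    rw [Finset.powerset_univ] at this
    rw [this]
    simp
  rw [h1]
  apply Finset.sum_congr rfl
  intro t ht
  have ht' : t ≤ n := by
    rw [Finset.mem_range] at ht
    omega
  have h2 := perm_avg t ht' f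
  have hf : (n.factorial : ℝ) ≠ 0 := by positivity
  have h3 : (n.choose t : ℝ) * ((∑ σ : Equiv.Perm (Fin n), f (act σ t)) / (n.factorial : ℝ)) =
      ∑ A ∈ powersetCard t (univ : Finset (Fin n)), f A := by
    field_simp
    linarith
  have h4 : ∑ A ∈ powersetCard t (univ : Finset (Fin n)), bw p A * f A =
      p ^ t * (1 - p) ^ (n - t) * ∑ A ∈ powersetCard t (univ : Finset (Fin n)), f A := by
    rw [Finset.mul_sum]
    apply Finset.sum_congr rfl
    intro A hA
    rw [Finset.mem_powersetCard] at hA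
    unfold bw
    rw [Finset.card_compl, hA.2, Fintype.card_fin]
  rw [h4, ← h3]
  ring

theorem binom_sum {n : ℕ} (p : ℝ) :
    ∑ t ∈ range (n + 1), ((n.choose t : ℝ) * p ^ t * (1 - p) ^ (n - t)) = 1 := by
  have h := add_pow p (1 - p) n
  have : p + (1 - p) = 1 := by ring
  rw [this, one_pow] at h
  refine Eq.trans ?_ h.symm
  apply Finset.sum_congr rfl
  intro t _
  ring

end perm

end Pool.Agent.Work.MP_cfbcde_co
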