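import Mathlib

open Finset

namespace Pool.Agent.Work.MP_cfbcde_co

/-- number of components of the subgraph induced on `A` -/
noncomputable def cc {V : Type*} (G : SimpleGraph V) (A : Set V) : ℕ :=
  Nat.card (G.induce A).ConnectedComponent

theorem card_comp_le_of_surj {V W : Type*} [Finite V] {G : SimpleGraph V} {H : SimpleGraph W}
    (f : G →g H) (hf : Function.Surjective f) :
    Nat.card H.ConnectedComponent ≤ Nat.card G.ConnectedComponent := by
  apply Nat.card_le_card_of_surjective (SimpleGraph.ConnectedComponent.map f)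
  intro c
  induction c using SimpleGraph.ConnectedComponent.ind with
  | h w =>
    obtain ⟨v, rfl⟩ := hf w
    exact ⟨G.connectedComponentMk v, rfl⟩

theorem cc_anti {V : Type*} [Finite V] {G H : SimpleGraph V} (h : G ≤ H) (A : Set V) :
    cc H A ≤ cc G A := by
  apply card_comp_le_of_surj (⟨id, fun {a b} hab => h hab⟩ : G.induce A →g H.induce A)
  exact fun x => ⟨x, rfl⟩

theorem cc_le_ncard {V : Type*} [Finite V] (G : SimpleGraph V) (A : Set V) :
    cc G A ≤ A.ncard := by
  unfold cc
  rw [← Nat.card_coe_set_eq]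
  exact Nat.card_le_card_of_surjective (G.induce A).connectedComponentMk Quot.mk_surjective

/-- `2|W| ≤ 2 #components + #ordered adjacent pairs` -/
theorem two_card_le {W : Type*} [Fintype W] [DecidableEq W] (H : SimpleGraph W)
    [DecidableRel H.Adj] :
    2 * Fintype.card W ≤ 2 * Nat.card H.ConnectedComponent +
      (univ.filter fun x : W × W => H.Adj x.1 x.2).card := by
  classical
  let rep : W → W := fun v => Quot.out (H.connectedComponentMk v)
  have hrep : ∀ v, H.connectedComponentMk (rep v) = H.connectedComponentMk v :=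
    fun v => Quot.out_eq (H.connectedComponentMk v)
  have hreach : ∀ v, H.Reachable v (rep v) := fun v =>
    (SimpleGraph.ConnectedComponent.exact (hrep v)).symm
  have hnext : ∀ v, ∃ w, v ≠ rep v → H.Adj v w ∧ H.dist w (rep v) < H.dist v (rep v) := by
    intro v
    by_cases hv : v = rep v
    · exact ⟨v, fun h => absurd hv h⟩
    · obtain ⟨p, hp⟩ := (hreach v).exists_walk_length_eq_dist
      rw [← hp]
      clear hp
      have hrv : rep v = rep v := rfl
      revert p
      generalize hr : rep v = r at hv
      intro p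
      cases p with
      | nil => exact absurd rfl hv
      | @cons _ w _ h q =>
        refine ⟨w, fun _ => ⟨h, ?_⟩⟩
        rw [SimpleGraph.Walk.length_cons]
        exact Nat.lt_succ_of_le (SimpleGraph.dist_le q)
  choose next hnext using hnext
  have hrepn : ∀ v, v ≠ rep v → rep (next v) = rep v := by
    intro v hv
    show Quot.out (H.connectedComponentMk (next v)) = Quot.out (H.connectedComponentMk v)
    rw [SimpleGraph.ConnectedComponent.connectedComponentMk_eq_of_adj (hnext v hv).1]
  set R := univ.filter fun v : W => v = rep v with hR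
  set NR := univ.filter fun v : W => ¬ v = rep v with hNR
  have hcard : R.card + NR.card = Fintype.card W := by
    rw [hR, hNR, Finset.card_filter_add_card_filter_not]
    exact Finset.card_univ
  have hRle : R.card ≤ Nat.card H.ConnectedComponent := by
    rw [Nat.card_eq_fintype_card, ← Finset.card_univ]
    apply Finset.card_le_card_of_injOn (fun v => H.connectedComponentMk v)
    · intro v _
      exact Finset.mem_coe.2 (Finset.mem_univ _)
    · intro v hv w hw hvw
      have hv' : v = rep v := by simpa [hR] using hv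
      have hw' : w = rep w := by simpa [hR] using hw
      rw [hv', hw']
      show Quot.out (H.connectedComponentMk v) = Quot.out (H.connectedComponentMk w)
      simp only at hvw
      rw [hvw]
  have hNRle : 2 * NR.card ≤ (univ.filter fun x : W × W => H.Adj x.1 x.2).card := by
    have h1 : (NR.image fun v => (v, next v)).card = NR.card :=
      Finset.card_image_of_injective _ fun a b h => (Prod.mk.inj h).1
    have h2 : (NR.image fun v => (next v, v)).card = NR.card :=
      Finset.card_image_of_injective _ fun a b h => (Prod.mk.inj h).2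
    have hd : Disjoint (NR.image fun v => (v, next v)) (NR.image fun v => (next v, v)) := by
      rw [Finset.disjoint_left]
      rintro ⟨a, b⟩ ha hb
      simp only [mem_image, hNR, mem_filter, mem_univ, true_and, Prod.mk.injEq] at ha hb
      obtain ⟨v, hv, hva, hvb⟩ := ha
      obtain ⟨w, hw, hwa, hwb⟩ := hb
      subst hva hvb
      have e1 := (hnext v hv).2
      have e2 := (hnext w hw).2
      have e3 := hrepn v hv
      subst hwb
      rw [hwa] at e2
      rw [e3] at e2
      omega
    have h3 : (NR.image fun v => (v, next v)) ∪ (NR.image fun v => (next v, v)) ⊆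
        univ.filter fun x : W × W => H.Adj x.1 x.2 := by
      intro x hx
      simp only [mem_union, mem_image, hNR, mem_filter, mem_univ, true_and] at hx ⊢
      rcases hx with ⟨v, hv, rfl⟩ | ⟨v, hv, rfl⟩
      · exact (hnext v hv).1
      · exact (hnext v hv).1.symm
    have h4 := Finset.card_le_card h3
    rw [Finset.card_union_of_disjoint hd, h1, h2] at h4
    omega
  omega

theorem two_card_le_cc {V : Type*} [Fintype V] [DecidableEq V] (G : SimpleGraph V)
    [DecidableRel G.Adj] (A : Finset V) :
    2 * A.card ≤ 2 * cc G (A : Set V) +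
      ((univ.filter fun x : V × V => G.Adj x.1 x.2).filter fun x => x.1 ∈ A ∧ x.2 ∈ A).card := by
  classical
  have h := two_card_le (G.induce (A : Set V))
  have h1 : Fintype.card (A : Set V) = A.card := by simp
  rw [h1] at h
  refine h.trans ?_
  apply Nat.add_le_add_left
  apply Finset.card_le_card_of_injOn (fun x => (x.1.1, x.2.1))
  · intro x hx
    simp only [coe_filter, mem_univ, true_and, Set.mem_ofPred_eq, mem_filter] at hx ⊢
    exact ⟨hx, x.1.2, x.2.2⟩
  · intro x _ y _ hxy
    simp only [Prod.mk.injEq] at hxy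
    exact Prod.ext (Subtype.ext hxy.1) (Subtype.ext hxy.2)

/-- `S` is (the vertex set of) a component of the subgraph induced on `A`. -/
def IsCompOf {V : Type*} (G : SimpleGraph V) (A S : Finset V) : Prop :=
  S ⊆ A ∧ (G.induce (S : Set V)).Connected ∧ ∀ u ∈ S, ∀ v ∈ A, G.Adj u v → v ∈ S

theorem IsCompOf.subset_of_mem {V : Type*} {G : SimpleGraph V} {A S S' : Finset V}
    (hS : IsCompOf G A S) (hS' : IsCompOf G A S') {x : V} (hx : x ∈ S) (hx' : x ∈ S') :
    S ⊆ S' := by
  intro y hy
  have hr : (G.induce (S : Set V)).Reachable ⟨x, hx⟩ ⟨y, hy⟩ := hS.2.1.preconnected _ _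
  obtain ⟨w⟩ := hr
  have key : ∀ (a b : (S : Set V)) (w : (G.induce (S : Set V)).Walk a b), a.1 ∈ S' → b.1 ∈ S' := by
    intro a b w
    induction w with
    | nil => exact id
    | @cons a c b h p ih =>
      intro ha
      exact ih (hS'.2.2 a.1 ha c.1 (hS.1 c.2) h)
  exact key _ _ w hx'

theorem IsCompOf.disjoint {V : Type*} {G : SimpleGraph V} {A S S' : Finset V}
    (hS : IsCompOf G A S) (hS' : IsCompOf G A S') (hne : S ≠ S') : Disjoint S S' := by
  rw [Finset.disjoint_left]
  intro x hx hx'
  exact hne (Finset.Subset.antisymm (hS.subset_of_mem hS' hx hx') (hS'.subset_of_mem hS hx' hx))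

theorem exists_comps {V : Type*} [Fintype V] [DecidableEq V] (G : SimpleGraph V)
    (A : Finset V) :
    ∃ 𝒞 : Finset (Finset V), 𝒞.card = cc G (A : Set V) ∧ ∀ S ∈ 𝒞, IsCompOf G A S := by
  classical
  let f : (G.induce (A : Set V)).ConnectedComponent → Finset V := fun C =>
    univ.filter fun v => ∃ h : v ∈ A, (G.induce (A : Set V)).connectedComponentMk ⟨v, h⟩ = C
  have hf : Function.Injective f := by
    intro C D hCD
    induction C using SimpleGraph.ConnectedComponent.ind with
    | h w =>
      have : w.1 ∈ f ((G.induce (A : Set V)).connectedComponentMk w) := by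
        refine Finset.mem_filter.2 ⟨Finset.mem_univ _, w.2, rfl⟩
      rw [hCD] at this
      simp only [f, mem_filter, mem_univ, true_and] at this
      obtain ⟨_, h⟩ := this
      exact h
  refine ⟨univ.image f, ?_, ?_⟩
  · rw [Finset.card_image_of_injective _ hf, Finset.card_univ, cc, Nat.card_eq_fintype_card]
  · intro S hS
    rw [Finset.mem_image] at hS
    obtain ⟨C, _, rfl⟩ := hS
    refine ⟨?_, ?_, ?_⟩
    · intro v hv
      simp only [f, mem_filter, mem_univ, true_and] at hv
      exact hv.1
    · have hC := C.connected_toSimpleGraph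
      have hmem : ∀ x : C.supp, x.1.1 ∈ f C := by
        intro x
        simp only [f, mem_filter, mem_univ, true_and]
        exact ⟨x.1.2, x.2⟩
      refine hC.map (⟨fun x => ⟨x.1.1, hmem x⟩, fun {a b} hab => hab⟩ :
        C.toSimpleGraph →g G.induce ((f C : Finset V) : Set V)) ?_
      intro y
      have hy : y.1 ∈ f C := y.2
      simp only [f, mem_filter, mem_univ, true_and] at hy
      obtain ⟨h1, h2⟩ := hy
      exact ⟨⟨⟨y.1, h1⟩, h2⟩, rfl⟩
    · intro u hu v hv huv
      simp only [f, mem_filter, mem_univ, true_and] at hu ⊢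
      obtain ⟨h1, h2⟩ := hu
      refine ⟨hv, ?_⟩
      rw [← h2]
      apply SimpleGraph.ConnectedComponent.sound
      apply SimpleGraph.Adj.reachable
      exact huv.symm

theorem cc_le_three {V : Type*} [Fintype V] [DecidableEq V] (G : SimpleGraph V)
    (U : Finset V) (s : ℕ) (𝒮 : Finset (Finset V))
    (h𝒮 : ∀ S : Finset V, S ∈ 𝒮 ↔ S ⊆ U ∧ S.card ≤ s ∧ (G.induce (S : Set V)).Connected)
    (A : Finset V) [DecidablePred (IsCompOf G A)] :
    (s + 1) * cc G (A : Set V) ≤ (s + 1) * (𝒮.filter (IsCompOf G A)).card + Fintype.card V +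
      (s + 1) * Uᶜ.card := by
  classical
  obtain ⟨𝒞, h1, h2⟩ := exists_comps G A
  rw [← h1]
  have hpd : (𝒞 : Set (Finset V)).PairwiseDisjoint id := by
    intro S hS S' hS' hne
    exact (h2 S hS).disjoint (h2 S' hS') hne
  have hpd2 : (𝒞 : Set (Finset V)).PairwiseDisjoint (fun S => S \ U) := by
    intro S hS S' hS' hne
    exact Finset.disjoint_of_subset_left Finset.sdiff_subset
      (Finset.disjoint_of_subset_right Finset.sdiff_subset ((h2 S hS).disjoint (h2 S' hS') hne))
  have hs1 : ∑ S ∈ 𝒞, S.card ≤ Fintype.card V := by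
    have : ∑ S ∈ 𝒞, S.card = (𝒞.biUnion id).card := by
      rw [Finset.card_biUnion (fun i hi j hj hij => hpd hi hj hij)]
      rfl
    rw [this]
    exact Finset.card_le_univ _
  have hs2 : ∑ S ∈ 𝒞, (S \ U).card ≤ Uᶜ.card := by
    have : ∑ S ∈ 𝒞, (S \ U).card = (𝒞.biUnion fun S => S \ U).card := by
      rw [Finset.card_biUnion (fun i hi j hj hij => hpd2 hi hj hij)]
    rw [this]
    apply Finset.card_le_card
    intro x hx
    simp only [mem_biUnion, mem_sdiff] at hx
    obtain ⟨S, _, _, hxU⟩ := hx
    exact Finset.mem_compl.2 hxU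
  have hs3 : ∑ S ∈ 𝒞, (if S ∈ 𝒮 then 1 else 0) ≤ (𝒮.filter (IsCompOf G A)).card := by
    rw [← Finset.card_filter]
    apply Finset.card_le_card
    intro S hS
    rw [Finset.mem_filter] at hS ⊢
    exact ⟨hS.2, h2 S hS.1⟩
  have hterm : ∀ S ∈ 𝒞, (s + 1) ≤ (s + 1) * (if S ∈ 𝒮 then 1 else 0) + S.card +
      (s + 1) * (S \ U).card := by
    intro S hS
    by_cases hS𝒮 : S ∈ 𝒮
    · rw [if_pos hS𝒮]
      omega
    · rw [if_neg hS𝒮]
      by_cases hU : S ⊆ U
      · have : ¬ S.card ≤ s := by
          intro hc
          exact hS𝒮 ((h𝒮 S).2 ⟨hU, hc, (h2 S hS).2.1⟩)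
        omega
      · have : 1 ≤ (S \ U).card := by
          rw [Nat.one_le_iff_ne_zero, Ne, Finset.card_eq_zero, Finset.sdiff_eq_empty_iff_subset]
          exact hU
        nlinarith
  have hsum := Finset.sum_le_sum hterm
  rw [Finset.sum_const, Finset.sum_add_distrib, Finset.sum_add_distrib, ← Finset.mul_sum,
    ← Finset.mul_sum, smul_eq_mul] at hsum
  calc (s + 1) * 𝒞.card = 𝒞.card * (s + 1) := mul_comm _ _
    _ ≤ _ := hsum
    _ ≤ _ := by
      gcongr

theorem sum_card_comp_le {V : Type*} [Fintype V] [DecidableEq V] (G : SimpleGraph V)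
    (𝒮 : Finset (Finset V)) (A : Finset V) [DecidablePred (IsCompOf G A)] :
    ∑ S ∈ 𝒮.filter (IsCompOf G A), S.card ≤ A.card := by
  classical
  have hpd : ((𝒮.filter (IsCompOf G A) : Finset (Finset V)) : Set (Finset V)).PairwiseDisjoint id := by
    intro S hS S' hS' hne
    exact ((Finset.mem_filter.1 hS).2).disjoint ((Finset.mem_filter.1 hS').2) hne
  have : ∑ S ∈ 𝒮.filter (IsCompOf G A), S.card = ((𝒮.filter (IsCompOf G A)).biUnion id).card := by
    rw [Finset.card_biUnion (fun i hi j hj hij => hpd hi hj hij)]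
    rfl
  rw [this]
  apply Finset.card_le_card
  intro x hx
  simp only [mem_biUnion, mem_filter, id] at hx
  obtain ⟨S, ⟨_, hS⟩, hxS⟩ := hx
  exact hS.1 hxS

end Pool.Agent.Work.MP_cfbcde_co
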