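import Pool.Agent.Work.MP_cfbcde_co.Defs
import Pool.Agent.Work.MP_cfbcde_co.Comp
import Pool.Agent.Work.MP_cfbcde_co.Bern

open Finset

namespace Pool.Agent.Work.MP_cfbcde_co

section blocks

variable {W : Type*} [Fintype W] [DecidableEq W] {M : ℕ}

/-- section of `A` in the copy `b` -/
def sec (A : Finset (Fin M × W)) (b : Fin M) : Finset W := univ.filter fun w => (b, w) ∈ A

/-- a set in `M` copies is the family of its sections -/
def secEquiv : Finset (Fin M × W) ≃ (Fin M → Finset W) where
  toFun A := sec A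
  invFun h := univ.filter fun x => x.2 ∈ h x.1
  left_inv A := by
    ext ⟨b, w⟩
    simp [sec]
  right_inv h := by
    ext b w
    simp [sec]

theorem card_sec (A : Finset (Fin M × W)) : A.card = ∑ b, (sec A b).card := by
  have h := Finset.card_eq_sum_card_fiberwise (s := A) (t := (univ : Finset (Fin M)))
    (f := fun x => x.1) (fun _ _ => Finset.mem_coe.2 (Finset.mem_univ _))
  rw [h]
  apply Finset.sum_congr rfl
  intro b _
  symm
  apply Finset.card_bij (fun w _ => (b, w))
  · intro w hw
    simp only [sec, mem_filter, mem_univ, true_and] at hw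
    simp [hw]
  · intro w _ w' _ h
    exact (Prod.mk.inj h).2
  · rintro ⟨b', w⟩ hx
    simp only [mem_filter] at hx
    obtain ⟨h1, h2⟩ := hx
    subst h2
    exact ⟨w, by simp [sec, h1], rfl⟩

theorem sec_compl (A : Finset (Fin M × W)) (b : Fin M) : sec Aᶜ b = (sec A b)ᶜ := by
  ext w
  simp [sec]

theorem bw_sec (p : ℝ) (A : Finset (Fin M × W)) : bw p A = ∏ b, bw p (sec A b) := by
  unfold bw
  rw [Finset.prod_mul_distrib, Finset.prod_pow_eq_pow_sum, Finset.prod_pow_eq_pow_sum,
    ← card_sec, card_sec Aᶜ]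
  simp only [sec_compl]

theorem bw_prod (p : ℝ) (g : Finset W → ℝ) :
    ∑ A : Finset (Fin M × W), bw p A * ∏ b, g (sec A b) = (∑ S : Finset W, bw p S * g S) ^ M := by
  rw [Fintype.sum_pow]
  apply Fintype.sum_equiv (secEquiv (M := M) (W := W))
  intro A
  rw [bw_sec, ← Finset.prod_mul_distrib]
  rfl

theorem chernoff (f : Finset W → ℝ) (m μ δ l p : ℝ) (hf0 : ∀ S, 0 ≤ f S) (hfm : ∀ S, f S ≤ m)
    (hp0 : 0 ≤ p) (hp1 : p ≤ 1) (hμ : ∑ S : Finset W, bw p S * f S ≤ μ)
    (hl0 : 0 ≤ l) (hlm : l * m ≤ 1) :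
    ∑ A : Finset (Fin M × W), (if (M : ℝ) * (μ + δ) ≤ ∑ b, f (sec A b) then bw p A else 0) ≤
      Real.exp (-(l * δ - l ^ 2 * m ^ 2)) ^ M := by
  have h1 : ∀ A : Finset (Fin M × W),
      (if (M : ℝ) * (μ + δ) ≤ ∑ b, f (sec A b) then bw p A else 0) ≤
      Real.exp (-(l * (μ + δ))) ^ M * (bw p A * ∏ b, Real.exp (l * f (sec A b))) := by
    intro A
    have hA := bw_nonneg hp0 hp1 A
    by_cases hc : (M : ℝ) * (μ + δ) ≤ ∑ b, f (sec A b)
    · rw [if_pos hc, ← Real.exp_sum, ← Finset.mul_sum, ← Real.exp_nat_mul]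
      have e1 : Real.exp (↑M * -(l * (μ + δ))) * (bw p A * Real.exp (l * ∑ b, f (sec A b))) =
          bw p A * Real.exp (l * (∑ b, f (sec A b) - M * (μ + δ))) := by
        rw [mul_comm, mul_assoc, ← Real.exp_add]
        congr 2
        ring
      rw [e1]
      have e2 : 1 ≤ Real.exp (l * (∑ b, f (sec A b) - M * (μ + δ))) := by
        apply Real.one_le_exp
        apply mul_nonneg hl0
        linarith
      nlinarith
    · rw [if_neg hc]
      have : 0 ≤ ∏ b, Real.exp (l * f (sec A b)) := Finset.prod_nonneg fun _ _ => (Real.exp_pos _).le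
      positivity
  have h2 : ∑ S : Finset W, bw p S * Real.exp (l * f S) ≤ Real.exp (l * μ + l ^ 2 * m ^ 2) := by
    have h3 : ∀ S : Finset W, bw p S * Real.exp (l * f S) ≤
        bw p S * (1 + l ^ 2 * m ^ 2) + l * (bw p S * f S) := by
      intro S
      have hS := bw_nonneg hp0 hp1 S
      have hx0 : 0 ≤ l * f S := mul_nonneg hl0 (hf0 S)
      have hx1 : l * f S ≤ l * m := mul_le_mul_of_nonneg_left (hfm S) hl0
      have hx : |l * f S| ≤ 1 := by
        rw [abs_of_nonneg hx0]
        linarith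
      have h4 := (abs_le.1 (Real.abs_exp_sub_one_sub_id_le hx)).2
      have h5 : (l * f S) ^ 2 ≤ l ^ 2 * m ^ 2 := by
        rw [← mul_pow]
        exact pow_le_pow_left₀ hx0 hx1 2
      have h6 : Real.exp (l * f S) ≤ 1 + l ^ 2 * m ^ 2 + l * f S := by linarith
      calc bw p S * Real.exp (l * f S) ≤ bw p S * (1 + l ^ 2 * m ^ 2 + l * f S) :=
            mul_le_mul_of_nonneg_left h6 hS
        _ = _ := by ring
    calc _ ≤ ∑ S : Finset W, (bw p S * (1 + l ^ 2 * m ^ 2) + l * (bw p S * f S)) :=
          Finset.sum_le_sum fun S _ => h3 S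
      _ = (1 + l ^ 2 * m ^ 2) + l * ∑ S : Finset W, bw p S * f S := by
          rw [Finset.sum_add_distrib, ← Finset.sum_mul, bw_sum, one_mul, ← Finset.mul_sum]
      _ ≤ (1 + l ^ 2 * m ^ 2) + l * μ := by
          have := mul_le_mul_of_nonneg_left hμ hl0
          linarith
      _ ≤ Real.exp (l * μ + l ^ 2 * m ^ 2) := by
          have := Real.add_one_le_exp (l * μ + l ^ 2 * m ^ 2)
          linarith
  calc _ ≤ ∑ A : Finset (Fin M × W),
        Real.exp (-(l * (μ + δ))) ^ M * (bw p A * ∏ b, Real.exp (l * f (sec A b))) :=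
        Finset.sum_le_sum fun A _ => h1 A
    _ = Real.exp (-(l * (μ + δ))) ^ M * (∑ S : Finset W, bw p S * Real.exp (l * f S)) ^ M := by
        rw [← Finset.mul_sum, bw_prod p (fun S => Real.exp (l * f S))]
    _ ≤ Real.exp (-(l * (μ + δ))) ^ M * (Real.exp (l * μ + l ^ 2 * m ^ 2)) ^ M := by
        apply mul_le_mul_of_nonneg_left
        · apply pow_le_pow_left₀
          · exact Finset.sum_nonneg fun S _ =>
              mul_nonneg (bw_nonneg hp0 hp1 S) (Real.exp_pos _).le
          · exact h2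
        · positivity
    _ = _ := by
        rw [← mul_pow, ← Real.exp_add]
        congr 2
        ring

end blocks

section mode

theorem mode_nat (n t : ℕ) (ht : t ≤ n) :
    n ^ n ≤ (n + 1) * (n.choose t * t ^ t * (n - t) ^ (n - t)) := by
  -- the terms of the binomial expansion of `(t + (n-t))^n`
  set T : ℕ → ℕ := fun j => n.choose j * t ^ j * (n - t) ^ (n - j) with hT
  have hstep : ∀ j, j < n → T (j + 1) * ((j + 1) * (n - t)) = T j * ((n - j) * t) := by
    intro j hj
    have h1 := Nat.choose_succ_right_eq n j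
    obtain ⟨r, hr⟩ : ∃ r, n - j = r + 1 := ⟨n - j - 1, by omega⟩
    have hr' : n - (j + 1) = r := by omega
    simp only [hT]
    rw [hr'] 
    have h2 : (n - t) ^ (n - j) = (n - t) ^ r * (n - t) := by rw [hr, pow_succ]
    rw [h2]
    calc n.choose (j + 1) * t ^ (j + 1) * (n - t) ^ r * ((j + 1) * (n - t))
        = (n.choose (j + 1) * (j + 1)) * t ^ (j + 1) * (n - t) ^ r * (n - t) := by ring
      _ = (n.choose j * (n - j)) * t ^ (j + 1) * (n - t) ^ r * (n - t) := by rw [h1]
      _ = _ := by ring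
  have hup : ∀ i, i ≤ t → T (t - i) ≤ T t := by
    intro i
    induction i with
    | zero => intro _; simp
    | succ i ih =>
      intro hi
      refine le_trans ?_ (ih (by omega))
      have e : t - i = (t - (i + 1)) + 1 := by omega
      rw [e]
      set j := t - (i + 1) with hj
      have hjt : j + 1 ≤ t := by omega
      have hs := hstep j (by omega)
      rcases Nat.eq_zero_or_pos (n - t) with h0 | h0
      · -- n = t
        have : T j = 0 := by
          simp only [hT, h0]
          rw [Nat.zero_pow (by omega)]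
          simp
        omega
      · have hle : (j + 1) * (n - t) ≤ (n - j) * t := by
          obtain ⟨u, hu⟩ : ∃ u, t = j + 1 + u := ⟨t - (j + 1), by omega⟩
          obtain ⟨v, hv⟩ : ∃ v, n = t + v := ⟨n - t, by omega⟩
          have e1 : n - t = v := by omega
          have e2 : n - j = 1 + u + v := by omega
          rw [e1, e2, hu]
          nlinarith
        by_contra hlt
        push Not at hlt
        have hpos : 0 < (j + 1) * (n - t) := by positivity
        have : T (j + 1) * ((j + 1) * (n - t)) < T j * ((n - j) * t) :=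
          calc T (j + 1) * ((j + 1) * (n - t)) < T j * ((j + 1) * (n - t)) :=
                Nat.mul_lt_mul_of_pos_right hlt hpos
            _ ≤ T j * ((n - j) * t) := Nat.mul_le_mul_left _ hle
        omega
  have hdown : ∀ i, t + i ≤ n → T (t + i) ≤ T t := by
    intro i
    induction i with
    | zero => intro _; simp
    | succ i ih =>
      intro hi
      refine le_trans ?_ (ih (by omega))
      have hs := hstep (t + i) (by omega)
      have h0 : 0 < n - t := by omega
      have hle : (n - (t + i)) * t ≤ (t + i + 1) * (n - t) := by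
        obtain ⟨v, hv⟩ : ∃ v, n = t + i + v := ⟨n - (t + i), by omega⟩
        have e1 : n - t = i + v := by omega
        have e2 : n - (t + i) = v := by omega
        rw [e1, e2]
        nlinarith
      by_contra hlt
      push Not at hlt
      have hpos : 0 < (t + i + 1) * (n - t) := by positivity
      have : T (t + i) * ((n - (t + i)) * t) < T (t + i + 1) * ((t + i + 1) * (n - t)) :=
        calc T (t + i) * ((n - (t + i)) * t) ≤ T (t + i) * ((t + i + 1) * (n - t)) :=
              Nat.mul_le_mul_left _ hle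
          _ < T (t + i + 1) * ((t + i + 1) * (n - t)) := Nat.mul_lt_mul_of_pos_right hlt hpos
      omega
  have hall : ∀ j ∈ range (n + 1), T j ≤ T t := by
    intro j hj
    rw [Finset.mem_range] at hj
    rcases le_total j t with h | h
    · have := hup (t - j) (by omega)
      rwa [show t - (t - j) = j by omega] at this
    · have := hdown (j - t) (by omega)
      rwa [show t + (j - t) = j by omega] at this
  have hsum : n ^ n = ∑ j ∈ range (n + 1), T j := by
    have h := add_pow t (n - t) n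
    rw [show t + (n - t) = n by omega] at h
    rw [h]
    apply Finset.sum_congr rfl
    intro j _
    simp only [hT]
    simp only [Nat.cast_id]
    ring
  rw [hsum]
  calc _ ≤ ∑ j ∈ range (n + 1), T t := Finset.sum_le_sum hall
    _ = (n + 1) * T t := by simp

theorem mode_real (n t : ℕ) (hn : 1 ≤ n) (ht : t ≤ n) :
    1 ≤ ((n : ℝ) + 1) * ((n.choose t : ℝ) * ((t : ℝ) / n) ^ t * (1 - (t : ℝ) / n) ^ (n - t)) := by
  have h := mode_nat n t ht
  have hn' : (0 : ℝ) < n := by exact_mod_cast hn
  have h2 : ((n : ℝ)) ^ n ≤ ((n : ℝ) + 1) * ((n.choose t : ℝ) * (t : ℝ) ^ t *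
      (((n - t : ℕ)) : ℝ) ^ (n - t)) := by exact_mod_cast h
  have h3 : (1 : ℝ) - (t : ℝ) / n = ((n - t : ℕ) : ℝ) / n := by
    rw [Nat.cast_sub ht]
    field_simp
  rw [h3, div_pow, div_pow]
  have h4 : (n : ℝ) ^ t * (n : ℝ) ^ (n - t) = (n : ℝ) ^ n := by
    rw [← pow_add]
    congr 1
    omega
  have h5 : ((n : ℝ) + 1) * ((n.choose t : ℝ) * ((t : ℝ) ^ t / (n : ℝ) ^ t) *
      ((((n - t : ℕ)) : ℝ) ^ (n - t) / (n : ℝ) ^ (n - t))) =
      ((n : ℝ) + 1) * ((n.choose t : ℝ) * (t : ℝ) ^ t *
      (((n - t : ℕ)) : ℝ) ^ (n - t)) / (n : ℝ) ^ n := by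
    rw [← h4]
    field_simp
  rw [h5, le_div_iff₀ (by positivity), one_mul]
  exact h2

/-- Probability of a bad set under a uniform ordering versus Bernoulli. -/
theorem unif_le (n t : ℕ) (hn : 1 ≤ n) (ht : t ≤ n) (E : Finset (Fin n) → Prop)
    [DecidablePred E] :
    (∑ σ : Equiv.Perm (Fin n), (if E (act σ t) then (1 : ℝ) else 0)) / (n.factorial : ℝ) ≤
      ((n : ℝ) + 1) * ∑ A : Finset (Fin n), (if E A then bw ((t : ℝ) / n) A else 0) := by
  have hn' : (0 : ℝ) < n := by exact_mod_cast hn
  have hp0 : (0 : ℝ) ≤ (t : ℝ) / n := by positivity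
  have hp1 : (t : ℝ) / n ≤ 1 := by
    rw [div_le_one hn']
    exact_mod_cast ht
  have h1 := bw_expect ((t : ℝ) / n) (fun A : Finset (Fin n) => if E A then (1 : ℝ) else 0)
  have h2 : ∑ A : Finset (Fin n), bw ((t : ℝ) / n) A * (if E A then (1 : ℝ) else 0) =
      ∑ A : Finset (Fin n), (if E A then bw ((t : ℝ) / n) A else 0) := by
    apply Finset.sum_congr rfl
    intro A _
    by_cases h : E A <;> simp [h]
  rw [h2] at h1
  rw [h1]
  set X := (∑ σ : Equiv.Perm (Fin n), (if E (act σ t) then (1 : ℝ) else 0)) / (n.factorial : ℝ)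
    with hX
  have hX0 : 0 ≤ X := by
    rw [hX]
    apply div_nonneg _ (by positivity)
    apply Finset.sum_nonneg
    intro σ _
    split_ifs <;> norm_num
  have h3 : ((n.choose t : ℝ) * ((t : ℝ) / n) ^ t * (1 - (t : ℝ) / n) ^ (n - t)) * X ≤
      ∑ r ∈ range (n + 1), ((n.choose r : ℝ) * ((t : ℝ) / n) ^ r * (1 - (t : ℝ) / n) ^ (n - r)) *
        ((∑ σ : Equiv.Perm (Fin n), (if E (act σ r) then (1 : ℝ) else 0)) / (n.factorial : ℝ)) := by
    apply Finset.single_le_sum (f := fun r => ((n.choose r : ℝ) * ((t : ℝ) / n) ^ r *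
        (1 - (t : ℝ) / n) ^ (n - r)) *
        ((∑ σ : Equiv.Perm (Fin n), (if E (act σ r) then (1 : ℝ) else 0)) / (n.factorial : ℝ)))
      (a := t)
    · intro r _
      have : 0 ≤ 1 - (t : ℝ) / n := by linarith
      have h5 : 0 ≤ (∑ σ : Equiv.Perm (Fin n), (if E (act σ r) then (1 : ℝ) else 0)) := by
        apply Finset.sum_nonneg
        intro σ _
        split_ifs <;> norm_num
      positivity
    · rw [Finset.mem_range]
      omega
  have h4 := mode_real n t hn ht
  calc X = 1 * X := (one_mul X).symm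
    _ ≤ (((n : ℝ) + 1) * ((n.choose t : ℝ) * ((t : ℝ) / n) ^ t *
          (1 - (t : ℝ) / n) ^ (n - t))) * X := mul_le_mul_of_nonneg_right h4 hX0
    _ = ((n : ℝ) + 1) * (((n.choose t : ℝ) * ((t : ℝ) / n) ^ t *
          (1 - (t : ℝ) / n) ^ (n - t)) * X) := by ring
    _ ≤ _ := mul_le_mul_of_nonneg_left h3 (by positivity)

end mode

end Pool.Agent.Work.MP_cfbcde_co
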