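import Pool.Agent.Work.MP_cfbcde_co.Defs

open Finset

namespace Pool.Agent.Work.MP_cfbcde_co

/-- Finite groups without short relations. -/
theorem exists_group (k g : ℕ) :
    ∃ (Γ : Type) (_ : Group Γ) (_ : Fintype Γ) (a : Fin k → Γ),
      ∀ L : List (Fin k × Bool), FreeGroup.IsReduced L → 1 ≤ L.length → L.length ≤ g →
        FreeGroup.lift a (FreeGroup.mk L) ≠ 1 := by
  classical
  let Y : Type := {x : FreeGroup (Fin k) // x.norm ≤ g}
  have hfin : Finite Y := by
    have h1 := List.finite_length_le (Fin k × Bool) g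
    have h2 : Finite {l : List (Fin k × Bool) | l.length ≤ g} := h1
    apply Finite.of_injective (fun y : Y =>
      (⟨y.1.toWord, y.2⟩ : {l : List (Fin k × Bool) | l.length ≤ g}))
    intro x y h
    apply Subtype.ext
    apply FreeGroup.toWord_injective
    exact congrArg (fun z : {l : List (Fin k × Bool) | l.length ≤ g} => z.1) h
  have hπ : ∀ c : Fin k, ∃ π : Equiv.Perm Y, ∀ (y : Y) (h : (FreeGroup.of c * y.1).norm ≤ g),
      π y = ⟨FreeGroup.of c * y.1, h⟩ := by
    intro c
    obtain ⟨π, h⟩ := Equiv.Perm.exists_extending_pair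
      (fun y : {y : Y // (FreeGroup.of c * y.1).norm ≤ g} => y.1)
      (fun y : {y : Y // (FreeGroup.of c * y.1).norm ≤ g} =>
        (⟨FreeGroup.of c * y.1.1, y.2⟩ : Y))
      Subtype.val_injective
      (by
        intro x y hxy
        have := congrArg Subtype.val hxy
        simp only [mul_right_inj] at this
        exact Subtype.ext (Subtype.ext this))
    refine ⟨π, fun y hy => ?_⟩
    exact h ⟨y, hy⟩
  choose π hπ using hπ
  have : Fintype Y := Fintype.ofFinite Y
  refine ⟨Equiv.Perm Y, inferInstance, inferInstance, π, ?_⟩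
  have h1 : ((1 : FreeGroup (Fin k)).norm) ≤ g := by simp
  have key : ∀ L : List (Fin k × Bool), (hL : L.length ≤ g) →
      FreeGroup.lift π (FreeGroup.mk L) ⟨1, h1⟩ =
        ⟨FreeGroup.mk L, FreeGroup.norm_mk_le.trans hL⟩ := by
    intro L
    induction L with
    | nil =>
      intro _
      simp
      rfl
    | cons l L ih =>
      intro hL
      have hL' : L.length ≤ g := by
        rw [List.length_cons] at hL
        omega
      have ih' := ih hL'
      have hmk : FreeGroup.mk (l :: L) = FreeGroup.mk [l] * FreeGroup.mk L := by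
        rw [FreeGroup.mul_mk]
        rfl
      have hnorm : (FreeGroup.mk (l :: L)).norm ≤ g := FreeGroup.norm_mk_le.trans hL
      obtain ⟨c, b⟩ := l
      cases b with
      | true =>
        have hof : FreeGroup.mk [(c, true)] = FreeGroup.of c := rfl
        rw [hof] at hmk
        have : FreeGroup.lift π (FreeGroup.mk ((c, true) :: L)) =
            π c * FreeGroup.lift π (FreeGroup.mk L) := by
          rw [hmk, map_mul, FreeGroup.lift_apply_of]
        rw [this, Equiv.Perm.mul_apply, ih', hπ c _ (by rw [← hmk]; exact hnorm)]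
        apply Subtype.ext
        exact hmk.symm
      | false =>
        have hof : FreeGroup.mk [(c, false)] = (FreeGroup.of c)⁻¹ := by
          simp [FreeGroup.of, FreeGroup.inv_mk, FreeGroup.invRev]
        rw [hof] at hmk
        have h2 : FreeGroup.lift π (FreeGroup.mk ((c, false) :: L)) =
            (π c)⁻¹ * FreeGroup.lift π (FreeGroup.mk L) := by
          rw [hmk, map_mul, map_inv, FreeGroup.lift_apply_of]
        rw [h2, Equiv.Perm.mul_apply, ih', Equiv.Perm.inv_eq_iff_eq]
        have h3 : FreeGroup.of c * FreeGroup.mk ((c, false) :: L) = FreeGroup.mk L := by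
          rw [hmk, mul_inv_cancel_left]
        rw [hπ c _ (by
          show (FreeGroup.of c * FreeGroup.mk ((c, false) :: L)).norm ≤ g
          rw [h3]
          exact FreeGroup.norm_mk_le.trans hL')]
        apply Subtype.ext
        exact h3.symm
  intro L hred hpos hL h
  have h2 := key L hL
  rw [h] at h2
  have h3 : (1 : FreeGroup (Fin k)) = FreeGroup.mk L := congrArg Subtype.val h2
  have h4 : FreeGroup.reduce L = [] := by
    rw [← FreeGroup.toWord_mk, ← h3, FreeGroup.toWord_one]
  rw [hred.reduce_eq] at h4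
  rw [h4] at hpos
  simp at hpos

section layered

variable {Γ : Type} [Group Γ] {k : ℕ} (a : Fin k → Γ) (ℓ : ℕ)

/-- The layered Cayley graph. -/
def lay : SimpleGraph (Γ × Fin ℓ) where
  Adj u v := (∃ c, v.1 = u.1 * a c ∧ (v.2 : ℕ) = u.2 + 1) ∨
    (∃ c, u.1 = v.1 * a c ∧ (u.2 : ℕ) = v.2 + 1)
  symm := ⟨fun u v h => h.symm⟩
  loopless := ⟨by
    rintro u (⟨c, _, h⟩ | ⟨c, _, h⟩) <;> omega⟩

theorem lay_degenerate : IsDegenerate (lay a ℓ) k := by
  classical
  intro S hS
  -- maximal layer
  obtain ⟨v, hv, hmax⟩ : ∃ v ∈ S, ∀ w ∈ S, (w.2 : ℕ) ≤ v.2 := by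
    have hne : (Set.image (fun v : Γ × Fin ℓ => v.2) S).Nonempty := hS.image _
    have hfin : (Set.image (fun v : Γ × Fin ℓ => v.2) S).Finite := Set.toFinite _
    obtain ⟨m, hm, hm2⟩ := hfin.exists_maximalFor id _ hne
    obtain ⟨v, hv, rfl⟩ := hm
    refine ⟨v, hv, fun w hw => ?_⟩
    by_contra hlt
    push Not at hlt
    have := hm2 (Set.mem_image_of_mem _ hw) (show id v.2 ≤ id w.2 from by
      simp only [id]
      exact Fin.le_def.2 hlt.le)
    simp only [id] at this
    have h2 := Fin.le_def.1 this
    omega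
  refine ⟨v, hv, ?_⟩
  have hsub : {w | w ∈ S ∧ (lay a ℓ).Adj v w} ⊆
      Set.range (fun c : Fin k => ((v.1 * (a c)⁻¹,
        ⟨(v.2 : ℕ) - 1, by have := v.2.2; omega⟩) : Γ × Fin ℓ)) := by
    rintro w ⟨hw, h | h⟩
    · obtain ⟨c, _, h2⟩ := h
      have := hmax w hw
      omega
    · obtain ⟨c, h1, h2⟩ := h
      refine ⟨c, ?_⟩
      apply Prod.ext
      · simp [h1]
      · apply Fin.ext
        simp [h2]
  calc _ ≤ (Set.range (fun c : Fin k => ((v.1 * (a c)⁻¹,
        ⟨(v.2 : ℕ) - 1, by have := v.2.2; omega⟩) : Γ × Fin ℓ))).ncard :=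
        Set.ncard_le_ncard hsub (Set.toFinite _)
    _ ≤ k := by
      rw [← Set.image_univ]
      refine (Set.ncard_image_le (Set.toFinite _)).trans ?_
      rw [Set.ncard_univ, Nat.card_eq_fintype_card, Fintype.card_fin]

/-- directed step along a letter -/
def sstep (l : Fin k × Bool) (u v : Γ × Fin ℓ) : Prop :=
  if l.2 then v.1 = u.1 * a l.1 ∧ (v.2 : ℕ) = u.2 + 1 else u.1 = v.1 * a l.1 ∧ (u.2 : ℕ) = v.2 + 1

theorem sstep_fst {l : Fin k × Bool} {u v : Γ × Fin ℓ} (h : sstep a ℓ l u v) :
    v.1 = u.1 * FreeGroup.lift a (FreeGroup.mk [l]) := by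
  obtain ⟨c, b⟩ := l
  cases b with
  | true =>
    simp only [sstep, if_true] at h
    simpa [FreeGroup.lift_mk] using h.1
  | false =>
    simp only [sstep, Bool.false_eq_true, if_false] at h
    simp [FreeGroup.lift_mk, h.1]

theorem walk_word : ∀ (u v : Γ × Fin ℓ) (w : (lay a ℓ).Walk u v), w.IsTrail →
    ∃ L : List (Fin k × Bool), FreeGroup.IsReduced L ∧ L.length = w.length ∧
      v.1 = u.1 * FreeGroup.lift a (FreeGroup.mk L) ∧
      ∀ l L', L = l :: L' → sstep a ℓ l u w.snd := by
  intro u v w
  induction w with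
  | nil =>
    intro _
    refine ⟨[], FreeGroup.IsReduced.nil, rfl, ?_, ?_⟩
    · simp [← FreeGroup.one_eq_mk]
    · intro l L' h
      simp at h
  | @cons u v1 v h p ih =>
    intro ht
    rw [SimpleGraph.Walk.isTrail_cons] at ht
    obtain ⟨L', hred, hlen, hval, hhead⟩ := ih ht.1
    obtain ⟨l, hl⟩ : ∃ l, sstep a ℓ l u v1 := by
      rcases h with ⟨c, h1, h2⟩ | ⟨c, h1, h2⟩
      · exact ⟨(c, true), by simp only [sstep, if_true]; exact ⟨h1, h2⟩⟩
      · exact ⟨(c, false), by simp only [sstep, Bool.false_eq_true, if_false]; exact ⟨h1, h2⟩⟩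
    refine ⟨l :: L', ?_, ?_, ?_, ?_⟩
    · cases L' with
      | nil => exact FreeGroup.IsReduced.singleton
      | cons l' L'' =>
        rw [FreeGroup.isReduced_cons_cons]
        refine ⟨?_, hred⟩
        intro hll
        by_contra hne
        have hs := hhead l' L'' rfl
        have hback : p.snd = u := by
          obtain ⟨c, b⟩ := l
          obtain ⟨c', b'⟩ := l'
          simp only at hll hne
          subst hll
          cases b <;> cases b' <;> simp only [sstep, Bool.false_eq_true, if_false, if_true] at hl hs hne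
          · exact absurd trivial hne
          · apply Prod.ext
            · rw [hs.1, hl.1]
            · apply Fin.ext
              rw [hs.2, hl.2]
          · apply Prod.ext
            · have := hl.1.symm.trans hs.1
              exact (mul_right_cancel this).symm
            · apply Fin.ext
              have e1 := hl.2
              have e2 := hs.2
              omega
          · exact absurd trivial hne
        apply ht.2
        cases p with
        | nil => simp at hlen
        | @cons _ v2 _ h' p' =>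
          rw [SimpleGraph.Walk.snd_cons] at hback
          subst hback
          rw [SimpleGraph.Walk.edges_cons]
          rw [Sym2.eq_swap]
          exact List.mem_cons_self
    · simp [hlen]
    · have hmk : FreeGroup.mk (l :: L') = FreeGroup.mk [l] * FreeGroup.mk L' := by
        rw [FreeGroup.mul_mk]
        rfl
      rw [hmk, map_mul, hval, sstep_fst a ℓ hl, mul_assoc]
    · intro l2 L2 h2
      rw [SimpleGraph.Walk.snd_cons]
      rw [List.cons.injEq] at h2
      rw [← h2.1]
      exact hl

theorem lay_girth (g : ℕ)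
    (hP : ∀ L : List (Fin k × Bool), FreeGroup.IsReduced L → 1 ≤ L.length → L.length ≤ g →
        FreeGroup.lift a (FreeGroup.mk L) ≠ 1)
    (v : Γ × Fin ℓ) (c : (lay a ℓ).Walk v v) (hc : c.IsCycle) : g < c.length := by
  by_contra hlt
  push Not at hlt
  obtain ⟨L, hred, hlen, hval, _⟩ := walk_word a ℓ v v c hc.isTrail
  have h3 := hc.three_le_length
  refine hP L hred (by omega) (by omega) ?_
  have : v.1 * 1 = v.1 * FreeGroup.lift a (FreeGroup.mk L) := by rw [mul_one]; exact hval
  exact (mul_left_cancel this).symm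

theorem lay_degree [Fintype Γ] [DecidableEq Γ] [DecidableRel (lay a ℓ).Adj] (g : ℕ) (hg : 2 ≤ g)
    (hP : ∀ L : List (Fin k × Bool), FreeGroup.IsReduced L → 1 ≤ L.length → L.length ≤ g →
        FreeGroup.lift a (FreeGroup.mk L) ≠ 1)
    (v : Γ × Fin ℓ) (h1 : 1 ≤ (v.2 : ℕ)) (h2 : (v.2 : ℕ) + 1 < ℓ) :
    ((lay a ℓ).neighborFinset v).card = 2 * k := by
  classical
  have hinj : Function.Injective a := by
    intro c c' hcc
    by_contra hne
    apply hP [(c, true), (c', false)] _ (by simp) (by simpa using hg)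
    · simp [FreeGroup.lift_mk, hcc]
    · rw [FreeGroup.isReduced_cons_cons]
      exact ⟨fun h => absurd h hne, FreeGroup.IsReduced.singleton⟩
  have heq : (lay a ℓ).neighborFinset v =
      (univ.image fun c : Fin k => ((v.1 * a c, ⟨(v.2 : ℕ) + 1, h2⟩) : Γ × Fin ℓ)) ∪
      (univ.image fun c : Fin k => ((v.1 * (a c)⁻¹,
        ⟨(v.2 : ℕ) - 1, by omega⟩) : Γ × Fin ℓ)) := by
    ext w
    simp only [SimpleGraph.mem_neighborFinset, mem_union, mem_image, mem_univ, true_and]
    constructor
    · rintro (⟨c, e1, e2⟩ | ⟨c, e1, e2⟩)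
      · left
        refine ⟨c, Prod.ext e1.symm (Fin.ext ?_)⟩
        simp [e2]
      · right
        refine ⟨c, Prod.ext ?_ (Fin.ext ?_)⟩
        · simp [e1]
        · simp [e2]
    · rintro (⟨c, rfl⟩ | ⟨c, rfl⟩)
      · left
        exact ⟨c, rfl, rfl⟩
      · right
        refine ⟨c, ?_, ?_⟩
        · simp
        · simp only
          omega
  rw [heq, Finset.card_union_of_disjoint, Finset.card_image_of_injective,
    Finset.card_image_of_injective]
  · simp
    omega
  · intro c c' h
    have := (Prod.mk.inj h).1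
    exact hinj (inv_injective (mul_left_cancel this))
  · intro c c' h
    have := (Prod.mk.inj h).1
    exact hinj (mul_left_cancel this)
  · rw [Finset.disjoint_left]
    intro w hw hw'
    simp only [mem_image, mem_univ, true_and] at hw hw'
    obtain ⟨c, rfl⟩ := hw
    obtain ⟨c', h⟩ := hw'
    have := congrArg Fin.val (Prod.mk.inj h).2
    simp only at this
    omega

end layered

end Pool.Agent.Work.MP_cfbcde_co
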