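import Pool.Agent.Work.MP_cfbcde_co.Defs
import Pool.Agent.Work.MP_cfbcde_co.Comp
import Pool.Agent.Work.MP_cfbcde_co.Bern

open Finset

namespace Pool.Agent.Work.MP_cfbcde_co

theorem CC_eq {n : ℕ} (G : SimpleGraph (Fin n)) (σ : Equiv.Perm (Fin n)) (t : ℕ) :
    CC G σ t = cc G ((act σ t : Finset (Fin n)) : Set (Fin n)) := by
  unfold CC cc
  have : {v | ((σ.symm v : Fin n) : ℕ) < t} = ((act σ t : Finset (Fin n)) : Set (Fin n)) := by
    ext v
    simp [act]
  rw [this]

theorem CC_le {n : ℕ} (G : SimpleGraph (Fin n)) (σ : Equiv.Perm (Fin n)) (t : ℕ) :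
    CC G σ t ≤ n := by
  rw [CC_eq]
  refine (cc_le_ncard G _).trans ?_
  rw [Set.ncard_coe_finset]
  refine (Finset.card_le_univ _).trans ?_
  simp

theorem value_le {n : ℕ} (G : SimpleGraph (Fin n)) (τ : Equiv.Perm (Fin n) → ℕ) (c : ℝ)
    (h : ∑ σ : Equiv.Perm (Fin n), (CC G σ (τ σ) : ℝ) ≤ (n.factorial : ℝ) * c) :
    value G τ ≤ c := by
  unfold value
  rw [div_le_iff₀ (by positivity)]
  linarith

theorem value_le_n {n : ℕ} (G : SimpleGraph (Fin n)) (τ : Equiv.Perm (Fin n) → ℕ) :
    value G τ ≤ n := by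
  apply value_le
  calc _ ≤ ∑ σ : Equiv.Perm (Fin n), (n : ℝ) := by
        apply Finset.sum_le_sum
        intro σ _
        exact_mod_cast CC_le G σ (τ σ)
    _ = _ := by
        rw [Finset.sum_const, Finset.card_univ, Fintype.card_perm, Fintype.card_fin, nsmul_eq_mul]

theorem bddAbove_values {n : ℕ} (G : SimpleGraph (Fin n)) :
    BddAbove {r : ℝ | ∃ τ : Equiv.Perm (Fin n) → ℕ, IsStopping τ ∧ r = value G τ} := by
  refine ⟨n, ?_⟩
  rintro r ⟨τ, _, rfl⟩
  exact value_le_n G τ

theorem const_stopping {n : ℕ} (t : ℕ) (h1 : 1 ≤ t) (h2 : t ≤ n) :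
    IsStopping (fun _ : Equiv.Perm (Fin n) => t) :=
  ⟨fun _ => ⟨h1, h2⟩, fun _ _ _ => rfl⟩

theorem value_const_le {n : ℕ} (G : SimpleGraph (Fin n)) (t : ℕ) (h1 : 1 ≤ t) (h2 : t ≤ n) :
    value G (fun _ => t) ≤ optValue G :=
  le_csSup (bddAbove_values G) ⟨_, const_stopping t h1 h2, rfl⟩

theorem optValue_nonneg {n : ℕ} (hn : 1 ≤ n) (G : SimpleGraph (Fin n)) : 0 ≤ optValue G := by
  refine le_trans ?_ (value_const_le G 1 le_rfl hn)
  unfold value
  positivity

theorem avg_le_optValue {n : ℕ} (hn : 1 ≤ n) (G : SimpleGraph (Fin n)) (t : ℕ) (ht : t ≤ n) :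
    (∑ σ : Equiv.Perm (Fin n), (cc G ((act σ t : Finset (Fin n)) : Set (Fin n)) : ℝ)) /
      (n.factorial : ℝ) ≤ optValue G := by
  rcases Nat.eq_zero_or_pos t with h | h
  · subst h
    have : ∀ σ : Equiv.Perm (Fin n), (cc G ((act σ 0 : Finset (Fin n)) : Set (Fin n)) : ℝ) = 0 := by
      intro σ
      have h1 := cc_le_ncard G ((act σ 0 : Finset (Fin n)) : Set (Fin n))
      rw [Set.ncard_coe_finset, act_card σ 0 ht] at h1
      have : cc G ((act σ 0 : Finset (Fin n)) : Set (Fin n)) = 0 := by omega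
      rw [this]
      simp
    rw [Finset.sum_congr rfl fun σ _ => this σ]
    simp
    exact optValue_nonneg hn G
  · have := value_const_le G t h ht
    unfold value at this
    simp only [CC_eq] at this
    exact this

/-- the Bernoulli expectation of the number of components is a lower bound for `m(G)` -/
theorem bern_le_optValue {n : ℕ} (hn : 1 ≤ n) (G : SimpleGraph (Fin n)) (p : ℝ) (hp0 : 0 ≤ p)
    (hp1 : p ≤ 1) :
    ∑ A : Finset (Fin n), bw p A * (cc G (A : Set (Fin n)) : ℝ) ≤ optValue G := by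
  have h := bw_expect p (fun A : Finset (Fin n) => (cc G (A : Set (Fin n)) : ℝ))
  calc _ = _ := h
    _ ≤ ∑ t ∈ range (n + 1), ((n.choose t : ℝ) * p ^ t * (1 - p) ^ (n - t)) * optValue G := by
        apply Finset.sum_le_sum
        intro t ht
        rw [Finset.mem_range] at ht
        apply mul_le_mul_of_nonneg_left (avg_le_optValue hn G t (by omega))
        have : 0 ≤ 1 - p := by linarith
        positivity
    _ = optValue G := by
        rw [← Finset.sum_mul, binom_sum, one_mul]

theorem pairs_le {V : Type*} [Fintype V] [DecidableEq V] (G : SimpleGraph V) [DecidableRel G.Adj]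
    (k : ℕ) (hG : IsDegenerate G k) :
    ∀ (N : ℕ) (S : Finset V), S.card = N →
      ((univ.filter fun x : V × V => G.Adj x.1 x.2).filter fun x => x.1 ∈ S ∧ x.2 ∈ S).card ≤
        2 * k * N := by
  intro N
  induction N with
  | zero =>
    intro S hS
    rw [Finset.card_eq_zero] at hS
    subst hS
    simp
  | succ N ih =>
    intro S hS
    have hne : (S : Set V).Nonempty := by
      rw [Finset.coe_nonempty, ← Finset.card_pos]
      omega
    obtain ⟨v, hv, hk⟩ := hG (S : Set V) hne
    have hv' : v ∈ S := hv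
    set Nv := S.filter fun w => G.Adj v w with hNv
    have hNvk : Nv.card ≤ k := by
      rw [← Set.ncard_coe_finset]
      refine le_trans (le_of_eq ?_) hk
      congr 1
      ext w
      simp [hNv]
    have h1 := ih (S.erase v) (by rw [Finset.card_erase_of_mem hv']; omega)
    have hsub : ((univ.filter fun x : V × V => G.Adj x.1 x.2).filter
        fun x => x.1 ∈ S ∧ x.2 ∈ S) ⊆
        (((univ.filter fun x : V × V => G.Adj x.1 x.2).filter
          fun x => x.1 ∈ S.erase v ∧ x.2 ∈ S.erase v) ∪ (Nv.image fun w => (v, w))) ∪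
          (Nv.image fun w => (w, v)) := by
      rintro ⟨x, y⟩ hxy
      simp only [mem_filter, mem_univ, true_and] at hxy
      simp only [mem_union, mem_filter, mem_univ, true_and, mem_erase, mem_image, hNv,
        Prod.mk.injEq]
      by_cases hx : x = v
      · subst hx
        left; right
        exact ⟨y, ⟨hxy.2.2, hxy.1⟩, rfl, rfl⟩
      · by_cases hy : y = v
        · subst hy
          right
          exact ⟨x, ⟨hxy.2.1, hxy.1.symm⟩, rfl, rfl⟩
        · left; left
          exact ⟨hxy.1, ⟨hx, hxy.2.1⟩, hy, hxy.2.2⟩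
    have h2 := Finset.card_le_card hsub
    have h3 := Finset.card_union_le (((univ.filter fun x : V × V => G.Adj x.1 x.2).filter
          fun x => x.1 ∈ S.erase v ∧ x.2 ∈ S.erase v) ∪ (Nv.image fun w => (v, w)))
          (Nv.image fun w => (w, v))
    have h4 := Finset.card_union_le ((univ.filter fun x : V × V => G.Adj x.1 x.2).filter
          fun x => x.1 ∈ S.erase v ∧ x.2 ∈ S.erase v) (Nv.image fun w => (v, w))
    have h5 : (Nv.image fun w => (v, w)).card ≤ Nv.card := Finset.card_image_le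
    have h6 : (Nv.image fun w => (w, v)).card ≤ Nv.card := Finset.card_image_le
    have h7 : 2 * k * (N + 1) = 2 * k * N + k + k := by ring
    omega

/-- Lower bound `n/(4k) ≤ m(G)`. -/
theorem lower_bound {n : ℕ} (hn : 1 ≤ n) (k : ℕ) (hk : 1 ≤ k) (G : SimpleGraph (Fin n))
    (hG : IsDegenerate G k) : (n : ℝ) / (4 * k) ≤ optValue G := by
  classical
  have hk' : (1 : ℝ) ≤ k := by exact_mod_cast hk
  set p : ℝ := 1 / (2 * k) with hp
  have hp0 : 0 ≤ p := by positivity
  have hp1 : p ≤ 1 := by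
    rw [hp, div_le_one (by positivity)]
    linarith
  refine le_trans ?_ (bern_le_optValue hn G p hp0 hp1)
  set P := (univ.filter fun x : Fin n × Fin n => G.Adj x.1 x.2) with hP
  have hPle : (P.card : ℝ) ≤ 2 * k * n := by
    have h := pairs_le G k hG n univ (by simp)
    have h2 : (P.filter fun x => x.1 ∈ (univ : Finset (Fin n)) ∧ x.2 ∈ (univ : Finset (Fin n))) = P := by
      apply Finset.filter_true_of_mem
      intro x _
      simp
    rw [h2] at h
    exact_mod_cast h
  have hpair := bw_sum_pairs p P (by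
    intro x hx
    rw [hP, Finset.mem_filter] at hx
    exact hx.2.ne)
  have hcard := bw_sum_card (V := Fin n) p
  have hpt : ∀ A : Finset (Fin n), bw p A * (A.card : ℝ) ≤
      bw p A * (cc G (A : Set (Fin n)) : ℝ) +
        (1 / 2) * (bw p A * ((P.filter fun x => x.1 ∈ A ∧ x.2 ∈ A).card : ℝ)) := by
    intro A
    have h := two_card_le_cc G A
    have h' : 2 * (A.card : ℝ) ≤ 2 * (cc G (A : Set (Fin n)) : ℝ) +
        ((P.filter fun x => x.1 ∈ A ∧ x.2 ∈ A).card : ℝ) := by exact_mod_cast h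
    have h'' : (A.card : ℝ) ≤ (cc G (A : Set (Fin n)) : ℝ) +
        (1 / 2) * ((P.filter fun x => x.1 ∈ A ∧ x.2 ∈ A).card : ℝ) := by linarith
    have := mul_le_mul_of_nonneg_left h'' (bw_nonneg hp0 hp1 A)
    linarith
  have hsum := Finset.sum_le_sum (s := (univ : Finset (Finset (Fin n)))) fun A _ => hpt A
  rw [hcard, Finset.sum_add_distrib, ← Finset.mul_sum, hpair] at hsum
  simp only [Fintype.card_fin] at hsum
  have hfin : (n : ℝ) / (4 * k) ≤ n * p - (1 / 2) * (2 * k * n * p ^ 2) := by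
    rw [hp]
    have hk0 : (k : ℝ) ≠ 0 := by positivity
    apply le_of_eq
    field_simp
    ring
  have h3 : (P.card : ℝ) * p ^ 2 ≤ 2 * k * n * p ^ 2 := by
    apply mul_le_mul_of_nonneg_right hPle
    positivity
  linarith

end Pool.Agent.Work.MP_cfbcde_co
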