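import Mathlib

open Finset

namespace Pool.Agent.Work.MP_cfbcde_co

theorem pow_mul_le_one (u : ℝ) (hu : 0 ≤ u) (e : ℕ) : u ^ e * (e + 1 - e * u) ≤ 1 := by
  induction e with
  | zero => simp
  | succ e ih =>
    refine le_trans ?_ ih
    have h1 : u ^ e * ((e : ℝ) + 1 - e * u) - u ^ (e + 1) * (((e + 1 : ℕ) : ℝ) + 1 - ((e + 1 : ℕ) : ℝ) * u)
        = (e + 1) * u ^ e * (u - 1) ^ 2 := by
      push_cast
      ring
    have h2 : 0 ≤ ((e : ℝ) + 1) * u ^ e * (u - 1) ^ 2 := by positivity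
    linarith

/-- the maximum of `p (1-p)^e` is at `p = 1/(e+1)` -/
theorem z_le (e : ℕ) (p : ℝ) (hp1 : p ≤ 1) :
    p * (1 - p) ^ e ≤ (1 / (e + 1)) * (1 - 1 / (e + 1)) ^ e := by
  rcases Nat.eq_zero_or_pos e with he | he
  · subst he; simp; linarith
  · have he' : (0 : ℝ) < e := by exact_mod_cast he
    have key := pow_mul_le_one ((1 - p) * (e + 1) / e) (by
      apply div_nonneg _ he'.le
      apply mul_nonneg <;> linarith) e
    have h1 : (e : ℝ) + 1 - e * ((1 - p) * (e + 1) / e) = (e + 1) * p := by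
      field_simp
      ring
    rw [h1] at key
    have h2 : (1 : ℝ) - 1 / (e + 1) = e / (e + 1) := by
      field_simp
      ring
    rw [h2]
    have h3 : p * (1 - p) ^ e = (((1 - p) * (e + 1) / e) ^ e * ((e + 1) * p)) *
        ((1 / (e + 1)) * (e / (e + 1)) ^ e) := by
      rw [div_pow, div_pow, mul_pow]
      field_simp
    rw [h3]
    have h4 : (0 : ℝ) ≤ (1 / (e + 1)) * (e / (e + 1)) ^ e := by positivity
    calc _ ≤ 1 * ((1 / ((e : ℝ) + 1)) * (e / (e + 1)) ^ e) :=
          mul_le_mul_of_nonneg_right key h4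
      _ = _ := one_mul _

theorem term_hasDerivAt (e j : ℕ) (x : ℝ) :
    HasDerivAt (fun x : ℝ => x ^ j * (1 - x) ^ (e * j))
      ((j : ℝ) * x ^ (j - 1) * (1 - x) ^ (e * j) +
        x ^ j * (((e * j : ℕ) : ℝ) * (1 - x) ^ (e * j - 1) * (-1))) x := by
  have h1 := hasDerivAt_pow j x
  have h2 : HasDerivAt (fun x : ℝ => (1 - x) ^ (e * j))
      (((e * j : ℕ) : ℝ) * (1 - x) ^ (e * j - 1) * (-1)) x := by
    have h3 : HasDerivAt (fun x : ℝ => 1 - x) (-1) x := by
      simpa using (hasDerivAt_id x).const_sub 1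
    exact h3.pow (e * j)
  exact h1.mul h2

theorem term_deriv_eq (e j : ℕ) (x : ℝ) (hx0 : 0 < x) (hx1 : x < 1) :
    ((j : ℝ) * x ^ (j - 1) * (1 - x) ^ (e * j) +
        x ^ j * (((e * j : ℕ) : ℝ) * (1 - x) ^ (e * j - 1) * (-1))) =
      (1 - (e + 1) * x) / (x * (1 - x)) * (j * (x ^ j * (1 - x) ^ (e * j))) := by
  have hx : x ≠ 0 := hx0.ne'
  have hy : (1 - x) ≠ 0 := by linarith
  rcases Nat.eq_zero_or_pos j with hj | hj
  · subst hj; simp
  · obtain ⟨i, rfl⟩ : ∃ i, j = i + 1 := ⟨j - 1, by omega⟩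
    rcases Nat.eq_zero_or_pos e with he | he
    · subst he
      simp
      field_simp
      ring
    · obtain ⟨f, hf⟩ : ∃ f, e * (i + 1) = f + 1 := ⟨e * (i + 1) - 1, by
        have : 0 < e * (i + 1) := by positivity
        omega⟩
      have hf' : (e : ℝ) * (i + 1) = f + 1 := by exact_mod_cast hf
      rw [hf]
      simp only [Nat.add_sub_cancel]
      push_cast
      field_simp
      rw [← hf']
      ring

theorem calc_sub (c : ℕ → ℝ) (s e : ℕ) (N : ℝ)
    (h : ∀ p : ℝ, 0 ≤ p → p ≤ 1 →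
      ∑ j ∈ range (s + 1), (j : ℝ) * c j * p ^ j * (1 - p) ^ (e * j + 2) ≤ N * p)
    (hc0 : c 0 = 0)
    (p : ℝ) (hp0 : 0 ≤ p) (hp1 : p < 1) (hpc : p * (e + 1) ≤ 1) :
    ∑ j ∈ range (s + 1), c j * p ^ j * (1 - p) ^ (e * j + 2) ≤ N * (p - (e + 2) / 2 * p ^ 2) := by
  set F : ℝ → ℝ := fun x => ∑ j ∈ range (s + 1), c j * (x ^ j * (1 - x) ^ (e * j)) with hF
  set Ψ : ℝ → ℝ := fun x => N * (x - (e + 2) / 2 * x ^ 2) / (1 - x) ^ 2 - F x with hΨ
  have hFd : ∀ x : ℝ, HasDerivAt F (∑ j ∈ range (s + 1), c j *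
      ((j : ℝ) * x ^ (j - 1) * (1 - x) ^ (e * j) +
        x ^ j * (((e * j : ℕ) : ℝ) * (1 - x) ^ (e * j - 1) * (-1)))) x := by
    intro x
    rw [hF]
    have := HasDerivAt.fun_sum (u := range (s + 1))
      (A := fun j (x : ℝ) => c j * (x ^ j * (1 - x) ^ (e * j)))
      (A' := fun j => c j * ((j : ℝ) * x ^ (j - 1) * (1 - x) ^ (e * j) +
        x ^ j * (((e * j : ℕ) : ℝ) * (1 - x) ^ (e * j - 1) * (-1)))) (x := x)
      (fun j _ => (term_hasDerivAt e j x).const_mul (c j))
    exact this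
  have hKd : ∀ x : ℝ, x < 1 → HasDerivAt (fun x : ℝ => N * (x - (e + 2) / 2 * x ^ 2) / (1 - x) ^ 2)
      (N * (1 - (e + 1) * x) / (1 - x) ^ 3) x := by
    intro x hx
    have hy : (1 - x) ≠ 0 := by linarith
    have h1 : HasDerivAt (fun x : ℝ => N * (x - (e + 2) / 2 * x ^ 2))
        (N * (1 - (e + 2) / 2 * (((2 : ℕ) : ℝ) * x ^ (2 - 1)))) x :=
      ((hasDerivAt_id x).sub ((hasDerivAt_pow 2 x).const_mul _)).const_mul N
    have h3 : HasDerivAt (fun x : ℝ => 1 - x) (-1) x := by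
      simpa using (hasDerivAt_id x).const_sub 1
    have h2 : HasDerivAt (fun x : ℝ => (1 - x) ^ 2) (((2 : ℕ) : ℝ) * (1 - x) ^ (2 - 1) * (-1)) x :=
      h3.pow 2
    have h4 := h1.div h2 (pow_ne_zero 2 hy)
    have e3 : (1 - x) ^ 2 = (1 - x) * (1 - x) := by ring
    refine h4.congr_deriv ?_
    rw [div_eq_div_iff (by positivity) (by positivity)]
    push_cast
    ring
  have hΨd : ∀ x : ℝ, x < 1 → HasDerivAt Ψ (N * (1 - (e + 1) * x) / (1 - x) ^ 3 -
      (∑ j ∈ range (s + 1), c j *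
      ((j : ℝ) * x ^ (j - 1) * (1 - x) ^ (e * j) +
        x ^ j * (((e * j : ℕ) : ℝ) * (1 - x) ^ (e * j - 1) * (-1))))) x :=
    fun x hx => (hKd x hx).sub (hFd x)
  have hmono : MonotoneOn Ψ (Set.Icc 0 p) := by
    apply monotoneOn_of_deriv_nonneg (convex_Icc 0 p)
    · intro x hx
      exact (hΨd x (lt_of_le_of_lt hx.2 hp1)).continuousAt.continuousWithinAt
    · intro x hx
      rw [interior_Icc] at hx
      exact (hΨd x (lt_trans hx.2 hp1)).differentiableAt.differentiableWithinAt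
    · intro x hx
      rw [interior_Icc] at hx
      have hx0 := hx.1
      have hx1 : x < 1 := lt_trans hx.2 hp1
      rw [(hΨd x hx1).deriv]
      have hsum : ∑ j ∈ range (s + 1), c j *
          ((j : ℝ) * x ^ (j - 1) * (1 - x) ^ (e * j) +
            x ^ j * (((e * j : ℕ) : ℝ) * (1 - x) ^ (e * j - 1) * (-1))) =
          (1 - (e + 1) * x) / (x * (1 - x)) *
            ∑ j ∈ range (s + 1), (j : ℝ) * c j * (x ^ j * (1 - x) ^ (e * j)) := by
        rw [Finset.mul_sum]
        apply Finset.sum_congr rfl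
        intro j _
        rw [term_deriv_eq e j x hx0 hx1]
        ring
      rw [hsum]
      have hJ := h x hx0.le hx1.le
      have hJ2 : ∑ j ∈ range (s + 1), (j : ℝ) * c j * x ^ j * (1 - x) ^ (e * j + 2) =
          (1 - x) ^ 2 * ∑ j ∈ range (s + 1), (j : ℝ) * c j * (x ^ j * (1 - x) ^ (e * j)) := by
        rw [Finset.mul_sum]
        apply Finset.sum_congr rfl
        intro j _
        ring
      rw [hJ2] at hJ
      set J := ∑ j ∈ range (s + 1), (j : ℝ) * c j * (x ^ j * (1 - x) ^ (e * j)) with hJdef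
      have hfac : N * (1 - (e + 1) * x) / (1 - x) ^ 3 - (1 - (e + 1) * x) / (x * (1 - x)) * J =
          (1 - (e + 1) * x) / (x * (1 - x) ^ 3) * (N * x - (1 - x) ^ 2 * J) := by
        have hx' : x ≠ 0 := hx0.ne'
        have hy : (1 - x) ≠ 0 := by linarith
        field_simp
      rw [hfac]
      apply mul_nonneg
      · apply div_nonneg
        · have : ((e : ℝ) + 1) * x ≤ p * (e + 1) := by
            have := hx.2.le
            nlinarith [Nat.cast_nonneg (α := ℝ) e]
          linarith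
        · have : 0 < 1 - x := by linarith
          positivity
      · linarith
  have h0 : Ψ 0 = 0 := by
    simp only [hΨ, hF]
    have : ∑ j ∈ range (s + 1), c j * ((0 : ℝ) ^ j * (1 - 0) ^ (e * j)) = 0 := by
      apply Finset.sum_eq_zero
      intro j _
      rcases Nat.eq_zero_or_pos j with hj | hj
      · subst hj; simp [hc0]
      · simp [hj.ne']
    rw [this]
    simp
  have hfin := hmono (Set.left_mem_Icc.2 hp0) (Set.right_mem_Icc.2 hp0) hp0
  rw [h0] at hfin
  have hq : 0 < 1 - p := by linarith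
  have h5 : F p ≤ N * (p - (e + 2) / 2 * p ^ 2) / (1 - p) ^ 2 := by
    simp only [hΨ] at hfin
    linarith
  rw [le_div_iff₀ (by positivity)] at h5
  refine le_trans (le_of_eq ?_) h5
  rw [hF]
  simp only
  rw [Finset.sum_mul]
  apply Finset.sum_congr rfl
  intro j _
  ring

/-- Main calculus lemma. -/
theorem calc_bound (c : ℕ → ℝ) (hc : ∀ j, 0 ≤ c j) (s e : ℕ) (N : ℝ) (hN : 0 ≤ N)
    (h : ∀ p : ℝ, 0 ≤ p → p ≤ 1 →
      ∑ j ∈ range (s + 1), (j : ℝ) * c j * p ^ j * (1 - p) ^ (e * j + 2) ≤ N * p)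
    (hc0 : c 0 = 0)
    (p : ℝ) (hp0 : 0 ≤ p) (hp1 : p ≤ 1) :
    ∑ j ∈ range (s + 1), c j * p ^ j * (1 - p) ^ (e * j + 2) ≤ N / (2 * (e + 2)) := by
  have hquad : ∀ x : ℝ, N * (x - (e + 2) / 2 * x ^ 2) ≤ N / (2 * (e + 2)) := by
    intro x
    have h1 : N / (2 * ((e : ℝ) + 2)) - N * (x - (e + 2) / 2 * x ^ 2) =
        N * (1 - (e + 2) * x) ^ 2 / (2 * (e + 2)) := by
      field_simp
      ring
    have h2 : 0 ≤ N * (1 - ((e : ℝ) + 2) * x) ^ 2 / (2 * (e + 2)) := by positivity
    linarith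
  rcases eq_or_lt_of_le hp1 with h1 | h1
  · subst h1
    have : ∑ j ∈ range (s + 1), c j * (1 : ℝ) ^ j * (1 - 1) ^ (e * j + 2) = 0 := by
      apply Finset.sum_eq_zero
      intro j _
      simp
    rw [this]
    positivity
  · by_cases hpc : p * (e + 1) ≤ 1
    · exact (calc_sub c s e N h hc0 p hp0 h1 hpc).trans (hquad p)
    · push Not at hpc
      have he : 0 < e := by
        rcases Nat.eq_zero_or_pos e with he | he
        · subst he
          simp at hpc
          linarith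
        · exact he
      have he' : (0 : ℝ) < e := by exact_mod_cast he
      set pc : ℝ := 1 / (e + 1) with hpcdef
      have hpc1 : pc < 1 := by
        rw [hpcdef, div_lt_one (by positivity)]
        linarith
      have hpc0 : 0 ≤ pc := by positivity
      have hpcp : pc ≤ p := by
        rw [hpcdef, div_le_iff₀ (by positivity)]
        exact hpc.le
      have h2 := calc_sub c s e N h hc0 pc hpc0 hpc1 (by
        rw [hpcdef]
        field_simp
        exact le_refl _)
      refine le_trans ?_ (h2.trans (hquad pc))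
      apply Finset.sum_le_sum
      intro j _
      have e1 : c j * p ^ j * (1 - p) ^ (e * j + 2) = c j * ((p * (1 - p) ^ e) ^ j * (1 - p) ^ 2) := by
        rw [mul_pow, ← pow_mul]
        ring
      have e2 : c j * pc ^ j * (1 - pc) ^ (e * j + 2) =
          c j * ((pc * (1 - pc) ^ e) ^ j * (1 - pc) ^ 2) := by
        rw [mul_pow, ← pow_mul]
        ring
      rw [e1, e2]
      apply mul_le_mul_of_nonneg_left _ (hc j)
      have hz := z_le e p hp1
      have hz0 : 0 ≤ p * (1 - p) ^ e := by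
        have : 0 ≤ 1 - p := by linarith
        positivity
      apply mul_le_mul
      · exact pow_le_pow_left₀ hz0 hz j
      · apply pow_le_pow_left₀ (by linarith)
        linarith
      · positivity
      · exact pow_nonneg (le_trans hz0 hz) j

end Pool.Agent.Work.MP_cfbcde_co
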