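import Pool.Agent.Work.MP_cfbcde_co.Comp
import Pool.Agent.Work.MP_cfbcde_co.Bern
import Pool.Agent.Work.MP_cfbcde_co.Calc

open Finset

namespace Pool.Agent.Work.MP_cfbcde_co

section

variable {V : Type*} [Fintype V] [DecidableEq V] (G : SimpleGraph V) [DecidableRel G.Adj]

theorem unique_nbr (s : ℕ)
    (hg : ∀ (v : V) (c : G.Walk v v), c.IsCycle → s + 1 < c.length)
    (S : Finset V) (hS : (G.induce (S : Set V)).Connected) (hs : S.card ≤ s)
    (w u u' : V) (hw : w ∉ S) (hu : u ∈ S) (hu' : u' ∈ S) (h : G.Adj w u) (h' : G.Adj w u') :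
    u = u' := by
  classical
  by_contra hne
  obtain ⟨q, hqp, hsupp, hlen⟩ : ∃ q : G.Walk u u', q.IsPath ∧ (∀ x ∈ q.support, x ∈ S) ∧
      q.length < S.card := by
    obtain ⟨p, hp⟩ := (hS.preconnected ⟨u, hu⟩ ⟨u', hu'⟩).exists_isPath
    have hlen := hp.length_lt
    have hcard : Fintype.card (S : Set V) = S.card := by simp
    rw [hcard] at hlen
    refine ⟨p.map (SimpleGraph.Embedding.induce (G := G) (S : Set V)).toHom, ?_, ?_, ?_⟩
    · exact SimpleGraph.Walk.IsPath.map (Subtype.val_injective) hp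
    · intro x hx
      erw [SimpleGraph.Walk.support_map, List.mem_map] at hx
      obtain ⟨y, _, rfl⟩ := hx
      exact y.2
    · erw [SimpleGraph.Walk.length_map]
      exact hlen
  have hwq : w ∉ q.support := fun hx => hw (hsupp w hx)
  have hp2 : (SimpleGraph.Walk.cons h q).IsPath := by
    rw [SimpleGraph.Walk.cons_isPath_iff]
    exact ⟨hqp, hwq⟩
  have hcyc : (SimpleGraph.Walk.cons h'.symm (SimpleGraph.Walk.cons h q)).IsCycle := by
    rw [SimpleGraph.Walk.cons_isCycle_iff]
    refine ⟨hp2, ?_⟩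
    intro hmem
    rw [SimpleGraph.Walk.edges_cons, List.mem_cons] at hmem
    rcases hmem with hmem | hmem
    · rw [Sym2.eq_iff] at hmem
      rcases hmem with ⟨h1, h2⟩ | ⟨h1, h2⟩
      · exact hw (h1 ▸ hu')
      · exact hne h1.symm
    · exact hwq (SimpleGraph.Walk.snd_mem_support_of_mem_edges q hmem)
  have := hg _ _ hcyc
  rw [SimpleGraph.Walk.length_cons, SimpleGraph.Walk.length_cons] at this
  omega

theorem tree_of_girth (s : ℕ)
    (hg : ∀ (v : V) (c : G.Walk v v), c.IsCycle → s + 1 < c.length)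
    (S : Finset V) (hS : (G.induce (S : Set V)).Connected) (hs : S.card ≤ s) :
    (G.induce (S : Set V)).IsTree := by
  classical
  refine ⟨hS, ?_⟩
  intro v c hc
  have hcm : (c.map (SimpleGraph.Embedding.induce (G := G) (S : Set V)).toHom).IsCycle := by
    apply hc.map
    exact Subtype.val_injective
  have h1 := hg _ _ hcm
  rw [SimpleGraph.Walk.length_map] at h1
  have h2 : c.tail.IsPath := hc.isPath_tail
  have h3 := h2.length_lt
  have hcard : Fintype.card (S : Set V) = S.card := by simp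
  rw [hcard] at h3
  have h4 := SimpleGraph.Walk.length_tail_add_one hc.not_nil
  omega

/-- outer vertex boundary -/
def bd (S : Finset V) : Finset V := univ.filter fun v => v ∉ S ∧ ∃ u ∈ S, G.Adj u v

theorem bd_card (s e : ℕ)
    (hg : ∀ (v : V) (c : G.Walk v v), c.IsCycle → s + 1 < c.length)
    (S : Finset V) (hS : (G.induce (S : Set V)).Connected) (hs : S.card ≤ s)
    (hdeg : ∀ v ∈ S, (G.neighborFinset v).card = e + 2) :
    (bd G S).card = e * S.card + 2 := by
  classical
  have htree := tree_of_girth G s hg S hS hs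
  have h1 := htree.card_edgeFinset
  have hcard : Fintype.card (S : Set V) = S.card := by simp
  rw [hcard] at h1
  have h2 := (G.induce (S : Set V)).sum_degrees_eq_twice_card_edges
  have h3 : ∀ x : (S : Set V), (G.induce (S : Set V)).degree x =
      (G.neighborFinset x.1 ∩ S).card := by
    intro x
    rw [← SimpleGraph.card_neighborFinset_eq_degree]
    rw [← Finset.card_map (Function.Embedding.subtype _)]
    congr 1
    ext y
    simp only [mem_map, SimpleGraph.mem_neighborFinset, SimpleGraph.comap_adj,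
      Function.Embedding.subtype_apply, Subtype.exists, mem_inter]
    constructor
    · rintro ⟨z, hz, hxz, rfl⟩
      exact ⟨hxz, hz⟩
    · rintro ⟨hxy, hy⟩
      exact ⟨y, hy, hxy, rfl⟩
  have h4 : ∑ x ∈ S, (G.neighborFinset x ∩ S).card =
      2 * (G.induce (S : Set V)).edgeFinset.card := by
    rw [← h2]
    rw [Finset.sum_congr rfl fun x _ => h3 x]
    exact (Finset.sum_coe_sort S (fun x => (G.neighborFinset x ∩ S).card)).symm
  have h5 : (bd G S) = S.biUnion fun x => G.neighborFinset x \ S := by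
    ext v
    simp only [bd, mem_filter, mem_univ, true_and, mem_biUnion, mem_sdiff,
      SimpleGraph.mem_neighborFinset]
    constructor
    · rintro ⟨hv, u, hu, huv⟩
      exact ⟨u, hu, huv, hv⟩
    · rintro ⟨u, hu, huv, hv⟩
      exact ⟨hv, u, hu, huv⟩
  have h6 : (bd G S).card = ∑ x ∈ S, (G.neighborFinset x \ S).card := by
    rw [h5, Finset.card_biUnion]
    intro x hx y hy hxy
    show Disjoint (G.neighborFinset x \ S) (G.neighborFinset y \ S)
    rw [Finset.disjoint_left]
    intro w hw hw'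
    simp only [mem_sdiff, SimpleGraph.mem_neighborFinset] at hw hw'
    exact hxy (unique_nbr G s hg S hS hs w x y hw.2 hx hy hw.1.symm hw'.1.symm)
  have h7 : ∑ x ∈ S, ((G.neighborFinset x ∩ S).card + (G.neighborFinset x \ S).card) =
      S.card * (e + 2) := by
    rw [Finset.sum_congr rfl (g := fun _ => e + 2), Finset.sum_const, smul_eq_mul]
    intro x hx
    rw [Finset.card_inter_add_card_sdiff]
    exact hdeg x hx
  rw [Finset.sum_add_distrib, h4, ← h6] at h7
  have h8 : S.card * (e + 2) = e * S.card + 2 * S.card := by ring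
  rw [h8] at h7
  omega

theorem isCompOf_iff (A S : Finset V) (hS : (G.induce (S : Set V)).Connected) :
    IsCompOf G A S ↔ S ⊆ A ∧ Disjoint (bd G S) A := by
  constructor
  · rintro ⟨h1, _, h3⟩
    refine ⟨h1, ?_⟩
    rw [Finset.disjoint_left]
    intro v hv hvA
    simp only [bd, mem_filter, mem_univ, true_and] at hv
    obtain ⟨hvS, u, hu, huv⟩ := hv
    exact hvS (h3 u hu v hvA huv)
  · rintro ⟨h1, h2⟩
    refine ⟨h1, hS, ?_⟩
    intro u hu v hv huv
    by_contra hvS
    exact (Finset.disjoint_left.1 h2) (by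
      simp only [bd, mem_filter, mem_univ, true_and]
      exact ⟨hvS, u, hu, huv⟩) hv

theorem expected_cc_le (U : Finset V) (s e : ℕ)
    (hg : ∀ (v : V) (c : G.Walk v v), c.IsCycle → s + 1 < c.length)
    (hdeg : ∀ v ∈ U, (G.neighborFinset v).card = e + 2)
    (p : ℝ) (hp0 : 0 ≤ p) (hp1 : p ≤ 1) :
    ∑ A : Finset V, bw p A * (cc G (A : Set V) : ℝ) ≤
      (Fintype.card V : ℝ) / (2 * (e + 2)) + (Fintype.card V : ℝ) / (s + 1) + (Uᶜ.card : ℝ) := by
  classical
  set 𝒮 : Finset (Finset V) := univ.filter fun S =>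
    S ⊆ U ∧ S.card ≤ s ∧ (G.induce (S : Set V)).Connected with h𝒮
  have hmem : ∀ S : Finset V, S ∈ 𝒮 ↔ S ⊆ U ∧ S.card ≤ s ∧ (G.induce (S : Set V)).Connected := by
    intro S
    rw [h𝒮]
    simp
  have hbd : ∀ S ∈ 𝒮, (bd G S).card = e * S.card + 2 := by
    intro S hS
    rw [hmem] at hS
    exact bd_card G s e hg S hS.2.2 hS.2.1 fun v hv => hdeg v (hS.1 hv)
  -- general expectation formula
  have hexp : ∀ (g : ℕ → ℝ) (x : ℝ), ∑ A : Finset V, bw x A *
      (∑ S ∈ 𝒮.filter (IsCompOf G A), g S.card) =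
      ∑ S ∈ 𝒮, g S.card * (x ^ S.card * (1 - x) ^ (e * S.card + 2)) := by
    intro g x
    have h1 : ∀ A : Finset V, bw x A * (∑ S ∈ 𝒮.filter (IsCompOf G A), g S.card) =
        ∑ S ∈ 𝒮, g S.card * (if S ⊆ A ∧ Disjoint (bd G S) A then bw x A else 0) := by
      intro A
      rw [Finset.sum_filter, Finset.mul_sum]
      apply Finset.sum_congr rfl
      intro S hS
      have := isCompOf_iff G A S ((hmem S).1 hS).2.2
      by_cases hc : IsCompOf G A S
      · rw [if_pos hc, if_pos (this.1 hc)]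
        ring
      · rw [if_neg hc, if_neg (fun h => hc (this.2 h))]
        ring
    rw [Finset.sum_congr rfl fun A _ => h1 A, Finset.sum_comm]
    apply Finset.sum_congr rfl
    intro S hS
    rw [← Finset.mul_sum, bw_sum_cond, hbd S hS]
    rw [Finset.disjoint_left]
    intro v hv hv'
    simp only [bd, mem_filter, mem_univ, true_and] at hv'
    exact hv'.1 hv
  -- regroup by size
  set c : ℕ → ℝ := fun j => ((𝒮.filter fun S => S.card = j).card : ℝ) with hc
  have hgroup : ∀ (g : ℕ → ℝ) (x : ℝ), ∑ S ∈ 𝒮, g S.card * (x ^ S.card * (1 - x) ^ (e * S.card + 2)) =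
      ∑ j ∈ range (s + 1), g j * c j * x ^ j * (1 - x) ^ (e * j + 2) := by
    intro g x
    have h2 := Finset.sum_fiberwise_of_maps_to (s := 𝒮) (t := range (s + 1)) (g := fun S => S.card)
      (fun S hS => by
        rw [Finset.mem_range]
        have := ((hmem S).1 hS).2.1
        omega) (fun S => g S.card * (x ^ S.card * (1 - x) ^ (e * S.card + 2)))
    rw [← h2]
    apply Finset.sum_congr rfl
    intro j _
    rw [Finset.sum_congr rfl (g := fun _ => g j * (x ^ j * (1 - x) ^ (e * j + 2)))]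
    · rw [Finset.sum_const, nsmul_eq_mul, hc]
      ring
    · intro S hS
      rw [(Finset.mem_filter.1 hS).2]
  have hc0 : c 0 = 0 := by
    rw [hc]
    simp only [Nat.cast_eq_zero, Finset.card_eq_zero]
    rw [Finset.filter_eq_empty_iff]
    intro S hS h0
    subst h0
    have := ((hmem ∅).1 hS).2.2.nonempty
    obtain ⟨x⟩ := this
    exact absurd x.2 (by simp)
  have hhyp : ∀ x : ℝ, 0 ≤ x → x ≤ 1 →
      ∑ j ∈ range (s + 1), (j : ℝ) * c j * x ^ j * (1 - x) ^ (e * j + 2) ≤
        (Fintype.card V : ℝ) * x := by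
    intro x hx0 hx1
    rw [← hgroup (fun j => (j : ℝ)) x, ← hexp (fun j => (j : ℝ)) x, ← bw_sum_card]
    apply Finset.sum_le_sum
    intro A _
    apply mul_le_mul_of_nonneg_left _ (bw_nonneg hx0 hx1 A)
    have := sum_card_comp_le G 𝒮 A
    exact_mod_cast this
  have hcalc := calc_bound c (fun j => by rw [hc]; positivity) s e (Fintype.card V)
    (by positivity) hhyp hc0 p hp0 hp1
  have hcount : ∑ A : Finset V, bw p A * ((𝒮.filter (IsCompOf G A)).card : ℝ) ≤
      (Fintype.card V : ℝ) / (2 * (e + 2)) := by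
    have e1 := hexp (fun _ => 1) p
    have e2 := hgroup (fun _ => 1) p
    simp only [Finset.sum_const, nsmul_eq_mul, mul_one, one_mul] at e1 e2
    rw [e1, e2]
    exact hcalc
  have hpoint : ∀ A : Finset V, (cc G (A : Set V) : ℝ) ≤ ((𝒮.filter (IsCompOf G A)).card : ℝ) +
      (Fintype.card V : ℝ) / (s + 1) + (Uᶜ.card : ℝ) := by
    intro A
    have h1 := cc_le_three G U s 𝒮 hmem A
    have h2 : ((s : ℝ) + 1) * (cc G (A : Set V) : ℝ) ≤
        ((s : ℝ) + 1) * ((𝒮.filter (IsCompOf G A)).card : ℝ) + (Fintype.card V : ℝ) +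
          ((s : ℝ) + 1) * (Uᶜ.card : ℝ) := by
      exact_mod_cast h1
    have hs : (0 : ℝ) < (s : ℝ) + 1 := by positivity
    have h3 : ((𝒮.filter (IsCompOf G A)).card : ℝ) + (Fintype.card V : ℝ) / (s + 1) +
        (Uᶜ.card : ℝ) = (((s : ℝ) + 1) * ((𝒮.filter (IsCompOf G A)).card : ℝ) +
          (Fintype.card V : ℝ) + ((s : ℝ) + 1) * (Uᶜ.card : ℝ)) / (s + 1) := by
      field_simp
    rw [h3, le_div_iff₀ hs]
    linarith
  calc ∑ A : Finset V, bw p A * (cc G (A : Set V) : ℝ)
      ≤ ∑ A : Finset V, bw p A * (((𝒮.filter (IsCompOf G A)).card : ℝ) +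
          (Fintype.card V : ℝ) / (s + 1) + (Uᶜ.card : ℝ)) := by
        apply Finset.sum_le_sum
        intro A _
        exact mul_le_mul_of_nonneg_left (hpoint A) (bw_nonneg hp0 hp1 A)
    _ = ∑ A : Finset V, bw p A * ((𝒮.filter (IsCompOf G A)).card : ℝ) +
          ((Fintype.card V : ℝ) / (s + 1) + (Uᶜ.card : ℝ)) := by
        have : ∀ A : Finset V, bw p A * (((𝒮.filter (IsCompOf G A)).card : ℝ) +
            (Fintype.card V : ℝ) / (s + 1) + (Uᶜ.card : ℝ)) =
            bw p A * ((𝒮.filter (IsCompOf G A)).card : ℝ) +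
            bw p A * ((Fintype.card V : ℝ) / (s + 1) + (Uᶜ.card : ℝ)) := by
          intro A
          ring
        rw [Finset.sum_congr rfl fun A _ => this A, Finset.sum_add_distrib, ← Finset.sum_mul,
          bw_sum, one_mul]
    _ ≤ _ := by linarith

end

end Pool.Agent.Work.MP_cfbcde_co
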