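import Pool.Agent.Work.MP_cfbcde_co.Defs
import Pool.Agent.Work.MP_cfbcde_co.Comp
import Pool.Agent.Work.MP_cfbcde_co.Bern
import Pool.Agent.Work.MP_cfbcde_co.Chernoff
import Pool.Agent.Work.MP_cfbcde_co.Tree
import Pool.Agent.Work.MP_cfbcde_co.Graph
import Pool.Agent.Work.MP_cfbcde_co.Lower

open Finset

namespace Pool.Agent.Work.MP_cfbcde_co

/-- existence of a good finite block -/
theorem exists_block (k : ℕ) (hk : 1 ≤ k) (ε : ℝ) (hε : 0 < ε) :
    ∃ (W : Type) (_ : Fintype W) (_ : DecidableEq W) (B : SimpleGraph W),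
      1 ≤ Fintype.card W ∧ IsDegenerate B k ∧
      ∀ p : ℝ, 0 ≤ p → p ≤ 1 → ∑ A : Finset W, bw p A * (cc B (A : Set W) : ℝ) ≤
        (Fintype.card W : ℝ) * (1 / (4 * k) + ε) := by
  classical
  obtain ⟨s, hs⟩ := exists_nat_gt (2 / ε)
  obtain ⟨ℓ, hℓ⟩ := exists_nat_gt (4 / ε)
  obtain ⟨Γ, _, _, a, ha⟩ := exists_group k (s + 2)
  have hℓpos : (0 : ℝ) < ℓ := lt_trans (by positivity) hℓ
  have hℓ1 : 1 ≤ ℓ := by exact_mod_cast hℓpos
  have hcardW : Fintype.card (Γ × Fin ℓ) = Fintype.card Γ * ℓ := by simp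
  have hΓ : 1 ≤ Fintype.card Γ := Fintype.card_pos
  refine ⟨Γ × Fin ℓ, inferInstance, inferInstance, lay a ℓ, ?_, lay_degenerate a ℓ, ?_⟩
  · rw [hcardW]
    exact Nat.mul_pos hΓ hℓ1
  · intro p hp0 hp1
    set U : Finset (Γ × Fin ℓ) := univ.filter fun v => 1 ≤ (v.2 : ℕ) ∧ (v.2 : ℕ) + 1 < ℓ with hU
    obtain ⟨e, he⟩ : ∃ e, 2 * k = e + 2 := ⟨2 * k - 2, by omega⟩
    have h := expected_cc_le (lay a ℓ) U s e
      (by
        intro v c hc
        have := lay_girth a ℓ (s + 2) ha v c hc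
        omega)
      (by
        intro v hv
        rw [hU, Finset.mem_filter] at hv
        rw [lay_degree a ℓ (s + 2) (by omega) ha v hv.2.1 hv.2.2, he])
      p hp0 hp1
    refine h.trans ?_
    have hUc : (Uᶜ.card : ℝ) ≤ 2 * Fintype.card Γ := by
      have h1 : Uᶜ ⊆ (univ : Finset Γ) ×ˢ
          ({⟨0, by omega⟩, ⟨ℓ - 1, by omega⟩} : Finset (Fin ℓ)) := by
        intro v hv
        rw [Finset.mem_compl, hU, Finset.mem_filter] at hv
        rw [Finset.mem_product]
        refine ⟨Finset.mem_univ _, ?_⟩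
        rw [Finset.mem_insert, Finset.mem_singleton]
        have h3 : ¬ (1 ≤ (v.2 : ℕ) ∧ (v.2 : ℕ) + 1 < ℓ) := fun h => hv ⟨Finset.mem_univ _, h⟩
        have h4 := v.2.2
        by_cases h5 : (v.2 : ℕ) = 0
        · left
          exact Fin.ext h5
        · right
          apply Fin.ext
          simp only
          omega
      have h2 := Finset.card_le_card h1
      rw [Finset.card_product, Finset.card_univ] at h2
      have h3 : ({⟨0, by omega⟩, ⟨ℓ - 1, by omega⟩} : Finset (Fin ℓ)).card ≤ 2 :=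
        Finset.card_le_two
      have h4 : Uᶜ.card ≤ 2 * Fintype.card Γ := by
        calc Uᶜ.card ≤ Fintype.card Γ * _ := h2
          _ ≤ Fintype.card Γ * 2 := Nat.mul_le_mul_left _ h3
          _ = _ := by ring
      exact_mod_cast h4
    have hcW : (Fintype.card (Γ × Fin ℓ) : ℝ) = Fintype.card Γ * ℓ := by exact_mod_cast hcardW
    have he' : (2 : ℝ) * ((e : ℝ) + 2) = 4 * k := by
      have : ((2 * k : ℕ) : ℝ) = ((e + 2 : ℕ) : ℝ) := by rw [he]
      push_cast at this
      linarith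
    rw [he', hcW]
    have hΓ' : (0 : ℝ) < Fintype.card Γ := by exact_mod_cast hΓ
    have h5 : (Fintype.card Γ : ℝ) * ℓ / (s + 1) ≤ Fintype.card Γ * ℓ * (ε / 2) := by
      rw [div_le_iff₀ (by positivity)]
      have : (1 : ℝ) ≤ ε / 2 * (s + 1) := by
        have h6 : 2 / ε < (s : ℝ) + 1 := by linarith
        rw [div_lt_iff₀ hε] at h6
        linarith
      calc (Fintype.card Γ : ℝ) * ℓ = Fintype.card Γ * ℓ * 1 := by ring
        _ ≤ Fintype.card Γ * ℓ * (ε / 2 * (s + 1)) := by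
          apply mul_le_mul_of_nonneg_left this
          positivity
        _ = _ := by ring
    have h6 : (2 : ℝ) * Fintype.card Γ ≤ Fintype.card Γ * ℓ * (ε / 2) := by
      rw [div_lt_iff₀ hε] at hℓ
      nlinarith
    have h7 : (Fintype.card Γ : ℝ) * ℓ * (1 / (4 * k) + ε) =
        Fintype.card Γ * ℓ / (4 * k) + Fintype.card Γ * ℓ * (ε / 2) +
          Fintype.card Γ * ℓ * (ε / 2) := by ring
    rw [h7]
    linarith

/-- disjoint union of `M` copies of `B` -/
def blk {W : Type*} (B : SimpleGraph W) (M : ℕ) : SimpleGraph (Fin M × W) where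
  Adj x y := x.1 = y.1 ∧ B.Adj x.2 y.2
  symm := ⟨fun x y h => ⟨h.1.symm, h.2.symm⟩⟩
  loopless := ⟨fun x h => h.2.ne rfl⟩

theorem cc_blk {W : Type*} [Fintype W] [DecidableEq W] (B : SimpleGraph W) (M : ℕ)
    (A : Finset (Fin M × W)) :
    cc (blk B M) (A : Set (Fin M × W)) ≤ ∑ b, cc B ((sec A b : Finset W) : Set W) := by
  classical
  unfold cc
  rw [← Nat.card_sigma]
  let hom : ∀ b : Fin M, B.induce ((sec A b : Finset W) : Set W) →g
      (blk B M).induce (A : Set (Fin M × W)) := fun b =>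
    ⟨fun w => ⟨(b, w.1), by
      have := w.2
      simp only [sec, coe_filter, mem_univ, true_and, Set.mem_ofPred_eq] at this
      exact this⟩, fun h => ⟨rfl, h⟩⟩
  apply Nat.card_le_card_of_surjective
    (fun x : (b : Fin M) × (B.induce ((sec A b : Finset W) : Set W)).ConnectedComponent =>
      x.2.map (hom x.1))
  intro C
  induction C using SimpleGraph.ConnectedComponent.ind with
  | h v =>
    obtain ⟨⟨b, w⟩, hv⟩ := v
    refine ⟨⟨b, (B.induce ((sec A b : Finset W) : Set W)).connectedComponentMk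
      ⟨w, by
        simp only [sec, coe_filter, mem_univ, true_and, Set.mem_ofPred_eq]
        exact hv⟩⟩, rfl⟩

theorem blk_degenerate {W : Type*} [Finite W] (B : SimpleGraph W) (M k : ℕ)
    (hB : IsDegenerate B k) : IsDegenerate (blk B M) k := by
  classical
  rintro S ⟨⟨b, w0⟩, hw0⟩
  obtain ⟨w, hw, hk⟩ := hB {w | (b, w) ∈ S} ⟨w0, hw0⟩
  refine ⟨(b, w), hw, ?_⟩
  refine le_trans ?_ hk
  have h : {x | x ∈ S ∧ (blk B M).Adj (b, w) x} ⊆
      (fun y => (b, y)) '' {y | y ∈ {w | (b, w) ∈ S} ∧ B.Adj w y} := by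
    rintro ⟨b', y⟩ ⟨h1, h2, h3⟩
    simp only at h2 h3
    subst h2
    exact ⟨y, ⟨h1, h3⟩, rfl⟩
  exact (Set.ncard_le_ncard h (Set.toFinite _)).trans (Set.ncard_image_le (Set.toFinite _))

theorem comap_degenerate {V W : Type*} [Finite V] [Finite W] (e : V ≃ W) (G : SimpleGraph W)
    (k : ℕ) (hG : IsDegenerate G k) : IsDegenerate (G.comap e) k := by
  classical
  intro S hS
  obtain ⟨w, hw, hk⟩ := hG (e '' S) (hS.image _)
  obtain ⟨v, hv, rfl⟩ := hw
  refine ⟨v, hv, ?_⟩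
  refine le_trans ?_ hk
  have h : e '' {w | w ∈ S ∧ (G.comap e).Adj v w} ⊆ {w | w ∈ e '' S ∧ G.Adj (e v) w} := by
    rintro _ ⟨w, ⟨h1, h2⟩, rfl⟩
    exact ⟨⟨w, h1, rfl⟩, h2⟩
  calc _ = (e '' {w | w ∈ S ∧ (G.comap e).Adj v w}).ncard :=
        (Set.ncard_image_of_injective _ e.injective).symm
    _ ≤ _ := Set.ncard_le_ncard h (Set.toFinite _)

theorem cc_comap {V W : Type*} [Fintype V] [Fintype W] [DecidableEq V] [DecidableEq W]
    (e : V ≃ W) (G : SimpleGraph W) (A : Finset V) :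
    cc (G.comap e) (A : Set V) ≤ cc G ((A.map e.toEmbedding : Finset W) : Set W) := by
  classical
  unfold cc
  let f : G.induce ((A.map e.toEmbedding : Finset W) : Set W) →g (G.comap e).induce (A : Set V) :=
    ⟨fun w => ⟨e.symm w.1, by
      have := w.2
      simp only [coe_map, Equiv.coe_toEmbedding, Set.mem_image, SetLike.mem_coe] at this
      obtain ⟨v, hv, hvw⟩ := this
      rw [← hvw]
      simpa using hv⟩, by
      intro x y h
      show G.Adj (e (e.symm x.1)) (e (e.symm y.1))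
      rw [Equiv.apply_symm_apply, Equiv.apply_symm_apply]
      exact h⟩
  apply card_comp_le_of_surj f
  rintro ⟨v, hv⟩
  refine ⟨⟨e v, ?_⟩, ?_⟩
  · simp only [coe_map, Equiv.coe_toEmbedding, Set.mem_image, SetLike.mem_coe]
    exact ⟨v, hv, rfl⟩
  · apply Subtype.ext
    show e.symm (e v) = v
    simp

theorem exists_max_super {n : ℕ} (k : ℕ) (G₀ : SimpleGraph (Fin n)) (h : IsDegenerate G₀ k) :
    ∃ G : SimpleGraph (Fin n), G₀ ≤ G ∧ IsMaxDegenerate G k := by
  classical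
  have hfin : (Set.univ : Set (SimpleGraph (Fin n))).Finite := Set.toFinite _
  have hne : {G : SimpleGraph (Fin n) | G₀ ≤ G ∧ IsDegenerate G k}.Nonempty := ⟨G₀, le_rfl, h⟩
  have hf2 : {G : SimpleGraph (Fin n) | G₀ ≤ G ∧ IsDegenerate G k}.Finite := Set.toFinite _
  obtain ⟨G, hG, hmax⟩ := hf2.exists_maximalFor id _ hne
  refine ⟨G, hG.1, hG.2, ?_⟩
  intro u v huv hadj hdeg
  have hle : G ≤ G ⊔ SimpleGraph.edge u v := le_sup_left
  have := hmax (⟨hG.1.trans hle, hdeg⟩ : (G ⊔ SimpleGraph.edge u v) ∈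
    {G : SimpleGraph (Fin n) | G₀ ≤ G ∧ IsDegenerate G k}) hle
  simp only [id] at this
  apply hadj
  apply this
  right
  rw [SimpleGraph.edge_adj]
  exact ⟨Or.inl ⟨rfl, rfl⟩, huv⟩

theorem value_blocks {W : Type*} [Fintype W] [DecidableEq W] (B : SimpleGraph W)
    (μ δ l : ℝ)
    (hμ : ∀ p : ℝ, 0 ≤ p → p ≤ 1 → ∑ A : Finset W, bw p A * (cc B (A : Set W) : ℝ) ≤ μ)
    (hl0 : 0 ≤ l) (hlm : l * (Fintype.card W : ℝ) ≤ 1)
    (hμ0 : 0 ≤ μ) (hδ0 : 0 ≤ δ)
    (M n : ℕ) (hn : 1 ≤ n) (e : Fin n ≃ Fin M × W) (G : SimpleGraph (Fin n))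
    (hG : (blk B M).comap e ≤ G) (τ : Equiv.Perm (Fin n) → ℕ) (hτ : IsStopping τ) :
    value G τ ≤ (M : ℝ) * (μ + δ) +
      (n : ℝ) * ((n : ℝ) + 1) ^ 2 *
        Real.exp (-(l * δ - l ^ 2 * (Fintype.card W : ℝ) ^ 2)) ^ M := by
  classical
  set X := Real.exp (-(l * δ - l ^ 2 * (Fintype.card W : ℝ) ^ 2)) ^ M with hX
  set f : Finset W → ℝ := fun S => (cc B (S : Set W) : ℝ) with hf
  set E : Finset (Fin n) → Prop := fun A =>
    (M : ℝ) * (μ + δ) ≤ ∑ b, f (sec (A.map e.toEmbedding) b) with hE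
  have hfm : ∀ S, f S ≤ (Fintype.card W : ℝ) := by
    intro S
    have h1 := cc_le_ncard B (S : Set W)
    rw [Set.ncard_coe_finset] at h1
    have h2 := h1.trans (Finset.card_le_univ S)
    show ((cc B (S : Set W) : ℕ) : ℝ) ≤ _
    exact_mod_cast h2
  have hf0 : ∀ S, 0 ≤ f S := fun S => by rw [hf]; positivity
  -- Bernoulli bound for the bad event
  have hbad : ∀ p : ℝ, 0 ≤ p → p ≤ 1 → ∑ A : Finset (Fin n), (if E A then bw p A else 0) ≤ X := by
    intro p hp0 hp1
    have h1 := chernoff (M := M) f (Fintype.card W) μ δ l p hf0 hfm hp0 hp1 (hμ p hp0 hp1) hl0 hlm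
    refine le_trans (le_of_eq ?_) h1
    apply Fintype.sum_equiv e.finsetCongr
    intro A
    have h2 : e.finsetCongr A = A.map e.toEmbedding := rfl
    have h3 : bw p (A.map e.toEmbedding) = bw p A := by
      unfold bw
      rw [Finset.card_compl, Finset.card_compl, Finset.card_map, ← Fintype.card_congr e]
    rw [h2, h3]
  have hunif : ∀ t, t ≤ n → (∑ σ : Equiv.Perm (Fin n), (if E (act σ t) then (1 : ℝ) else 0)) ≤
      (n.factorial : ℝ) * (((n : ℝ) + 1) * X) := by
    intro t ht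
    have hn' : (0 : ℝ) < n := by exact_mod_cast hn
    have h1 := unif_le n t hn ht E
    rw [div_le_iff₀ (by positivity)] at h1
    have h2 := hbad ((t : ℝ) / n) (by positivity) (by
      rw [div_le_one hn']
      exact_mod_cast ht)
    calc _ ≤ _ := h1
      _ ≤ ((n : ℝ) + 1) * X * (n.factorial : ℝ) := by
        apply mul_le_mul_of_nonneg_right _ (by positivity)
        apply mul_le_mul_of_nonneg_left h2 (by positivity)
      _ = _ := by ring
  have hpoint : ∀ σ : Equiv.Perm (Fin n), (CC G σ (τ σ) : ℝ) ≤ (M : ℝ) * (μ + δ) +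
      (n : ℝ) * ∑ t ∈ range (n + 1), (if E (act σ t) then (1 : ℝ) else 0) := by
    intro σ
    have hsum0 : 0 ≤ ∑ t ∈ range (n + 1), (if E (act σ t) then (1 : ℝ) else 0) := by
      apply Finset.sum_nonneg
      intro t _
      split_ifs <;> norm_num
    by_cases hc : E (act σ (τ σ))
    · have h1 : (1 : ℝ) ≤ ∑ t ∈ range (n + 1), (if E (act σ t) then (1 : ℝ) else 0) := by
        have h2 : (if E (act σ (τ σ)) then (1 : ℝ) else 0) ≤
            ∑ t ∈ range (n + 1), (if E (act σ t) then (1 : ℝ) else 0) := by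
          apply Finset.single_le_sum (f := fun t => (if E (act σ t) then (1 : ℝ) else 0))
          · intro t _
            split_ifs <;> norm_num
          · rw [Finset.mem_range]
            have := (hτ.1 σ).2
            omega
        rw [if_pos hc] at h2
        exact h2
      have h3 : (CC G σ (τ σ) : ℝ) ≤ n := by exact_mod_cast CC_le G σ (τ σ)
      have h4 : 0 ≤ (M : ℝ) * (μ + δ) := by positivity
      have h5 : (n : ℝ) * 1 ≤ (n : ℝ) * ∑ t ∈ range (n + 1), (if E (act σ t) then (1 : ℝ) else 0) :=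
        mul_le_mul_of_nonneg_left h1 (by positivity)
      linarith
    · have h1 : (CC G σ (τ σ) : ℝ) ≤ ∑ b, f (sec ((act σ (τ σ)).map e.toEmbedding) b) := by
        rw [CC_eq]
        have h2 := cc_anti hG ((act σ (τ σ) : Finset (Fin n)) : Set (Fin n))
        have h3 := cc_comap e (blk B M) (act σ (τ σ))
        have h4 := cc_blk B M ((act σ (τ σ)).map e.toEmbedding)
        have h5 := (h2.trans h3).trans h4
        show _ ≤ ∑ b, ((cc B ((sec ((act σ (τ σ)).map e.toEmbedding) b : Finset W) : Set W) : ℕ) : ℝ)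
        exact_mod_cast h5
      have h2 : ¬ (M : ℝ) * (μ + δ) ≤ ∑ b, f (sec ((act σ (τ σ)).map e.toEmbedding) b) := hc
      have h3 : 0 ≤ (n : ℝ) * ∑ t ∈ range (n + 1), (if E (act σ t) then (1 : ℝ) else 0) := by
        positivity
      push Not at h2
      linarith
  apply value_le
  calc _ ≤ ∑ σ : Equiv.Perm (Fin n), ((M : ℝ) * (μ + δ) +
      (n : ℝ) * ∑ t ∈ range (n + 1), (if E (act σ t) then (1 : ℝ) else 0)) :=
        Finset.sum_le_sum fun σ _ => hpoint σ
    _ = (n.factorial : ℝ) * ((M : ℝ) * (μ + δ)) + (n : ℝ) * ∑ t ∈ range (n + 1),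
        ∑ σ : Equiv.Perm (Fin n), (if E (act σ t) then (1 : ℝ) else 0) := by
        rw [Finset.sum_add_distrib, Finset.sum_const, Finset.card_univ, Fintype.card_perm,
          Fintype.card_fin, nsmul_eq_mul, ← Finset.mul_sum, Finset.sum_comm]
    _ ≤ (n.factorial : ℝ) * ((M : ℝ) * (μ + δ)) + (n : ℝ) * ∑ t ∈ range (n + 1),
        (n.factorial : ℝ) * (((n : ℝ) + 1) * X) := by
        apply add_le_add le_rfl
        apply mul_le_mul_of_nonneg_left _ (by positivity)
        apply Finset.sum_le_sum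
        intro t ht
        rw [Finset.mem_range] at ht
        exact hunif t (by omega)
    _ = _ := by
        rw [Finset.sum_const, Finset.card_range, nsmul_eq_mul]
        push_cast
        ring

/-- Upper bound: maximal `k`-degenerate graphs with small `m(G)/|G|`. -/
theorem upper_bound (k : ℕ) (hk : 1 ≤ k) (ε : ℝ) (hε : 0 < ε) (hε1 : ε ≤ 1) (N : ℕ) :
    ∃ n : ℕ, N ≤ n ∧ ∃ G : SimpleGraph (Fin n), IsMaxDegenerate G k ∧
      optValue G / n ≤ 1 / (4 * k) + ε := by
  classical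
  obtain ⟨W, _, _, B, hW, hB, hBμ⟩ := exists_block k hk (ε / 4) (by positivity)
  set m : ℕ := Fintype.card W with hm
  have hm0 : (0 : ℝ) < m := by exact_mod_cast hW
  have hk0 : (0 : ℝ) < k := by exact_mod_cast hk
  set l : ℝ := ε / (8 * m) with hl
  have hlm : l * m = ε / 8 := by
    rw [hl]
    field_simp
  set X0 : ℝ := Real.exp (-(ε ^ 2 / 64)) with hX0
  have hX01 : X0 < 1 := by
    rw [hX0, Real.exp_lt_one_iff]
    have : 0 < ε ^ 2 / 64 := by positivity
    linarith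
  have hX00 : 0 < X0 := Real.exp_pos _
  -- choose M
  have htend : Filter.Tendsto (fun M : ℕ => ((m : ℝ) + 1) ^ 2 * ((M : ℝ) ^ 2 * X0 ^ M))
      Filter.atTop (nhds 0) := by
    have h := tendsto_pow_const_mul_const_pow_of_abs_lt_one 2 (r := X0) (by
      rw [abs_of_pos hX00]
      exact hX01)
    have h2 := h.const_mul (((m : ℝ) + 1) ^ 2)
    simpa using h2
  have hev : ∀ᶠ M : ℕ in Filter.atTop, ((m : ℝ) + 1) ^ 2 * ((M : ℝ) ^ 2 * X0 ^ M) < ε / 2 :=
    htend.eventually (gt_mem_nhds (by positivity))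
  obtain ⟨M, hMε, hMN⟩ := (hev.and (Filter.eventually_ge_atTop (max N 1))).exists
  have hM1 : 1 ≤ M := le_trans (le_max_right _ _) hMN
  have hMN' : N ≤ M := le_trans (le_max_left _ _) hMN
  set n := M * m with hn
  have hn1 : 1 ≤ n := Nat.mul_pos hM1 hW
  have hcard : Fintype.card (Fin M × W) = n := by simp [hn, hm]
  let e : Fin n ≃ Fin M × W := (Fintype.equivFinOfCardEq hcard).symm
  obtain ⟨G, hG0, hGmax⟩ := exists_max_super k ((blk B M).comap e)
    (comap_degenerate e _ k (blk_degenerate B M k hB))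
  refine ⟨n, ?_, G, hGmax, ?_⟩
  · calc N ≤ M := hMN'
      _ = M * 1 := (mul_one M).symm
      _ ≤ M * m := Nat.mul_le_mul_left _ hW
  · have hn0 : (0 : ℝ) < n := by exact_mod_cast hn1
    have hM0 : (0 : ℝ) < M := by exact_mod_cast hM1
    have hnM : (n : ℝ) = M * m := by rw [hn]; push_cast; ring
    rw [div_le_iff₀ hn0]
    apply csSup_le
    · exact ⟨_, _, const_stopping 1 le_rfl hn1, rfl⟩
    · rintro r ⟨τ, hτ, rfl⟩
      have h := value_blocks B ((m : ℝ) * (1 / (4 * k) + ε / 4)) ((m : ℝ) * (ε / 4)) l hBμ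
        (by positivity) (by rw [← hm, hlm]; linarith) (by positivity) (by positivity) M n hn1 e G
        hG0 τ hτ
      have hexp : Real.exp (-(l * ((m : ℝ) * (ε / 4)) - l ^ 2 * (Fintype.card W : ℝ) ^ 2)) = X0 := by
        rw [hX0]
        congr 1
        rw [← hm]
        have e1 : l * ((m : ℝ) * (ε / 4)) = (l * m) * (ε / 4) := by ring
        have e2 : l ^ 2 * (m : ℝ) ^ 2 = (l * m) ^ 2 := by ring
        rw [e1, e2, hlm]
        ring
      rw [hexp] at h
      refine h.trans ?_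
      have h2 : ((n : ℝ) + 1) ^ 2 * X0 ^ M ≤ ε / 2 := by
        have h3 : (n : ℝ) + 1 ≤ ((m : ℝ) + 1) * M := by
          rw [hnM]
          have : (1 : ℝ) ≤ M := by exact_mod_cast hM1
          nlinarith
        have h4 : ((n : ℝ) + 1) ^ 2 ≤ (((m : ℝ) + 1) * M) ^ 2 :=
          pow_le_pow_left₀ (by positivity) h3 2
        calc _ ≤ (((m : ℝ) + 1) * M) ^ 2 * X0 ^ M :=
              mul_le_mul_of_nonneg_right h4 (by positivity)
          _ = ((m : ℝ) + 1) ^ 2 * ((M : ℝ) ^ 2 * X0 ^ M) := by ring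
          _ ≤ _ := hMε.le
      have h5 : (n : ℝ) * ((n : ℝ) + 1) ^ 2 * X0 ^ M ≤ n * (ε / 2) := by
        rw [mul_assoc]
        exact mul_le_mul_of_nonneg_left h2 hn0.le
      have h6 : (M : ℝ) * ((m : ℝ) * (1 / (4 * k) + ε / 4) + (m : ℝ) * (ε / 4)) =
          n * (1 / (4 * k) + ε / 2) := by
        rw [hnM]
        ring
      rw [h6]
      linarith

end Pool.Agent.Work.MP_cfbcde_co
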