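import Mathlib

open Finset

namespace Pool.Agent.Work.MP_cfbcde_co

/-- `G` is `k`-degenerate: every nonempty set `S` of vertices contains a vertex that has at most
`k` neighbours inside `S`. -/
def IsDegenerate {V : Type*} (G : SimpleGraph V) (k : ℕ) : Prop :=
  ∀ S : Set V, S.Nonempty → ∃ v ∈ S, {w | w ∈ S ∧ G.Adj v w}.ncard ≤ k

/-- `G` is maximal `k`-degenerate: it is `k`-degenerate, and adding any missing edge `uv` on the
same vertex set gives a graph that is not `k`-degenerate. -/
def IsMaxDegenerate {n : ℕ} (G : SimpleGraph (Fin n)) (k : ℕ) : Prop :=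
  IsDegenerate G k ∧
    ∀ u v : Fin n, u ≠ v → ¬ G.Adj u v → ¬ IsDegenerate (G ⊔ SimpleGraph.edge u v) k

/-- The number of connected components of the active part at time `t`: the subgraph induced on
the first `t` vertices `σ 0, …, σ (t-1)` of the ordering `σ`. -/
noncomputable def CC {n : ℕ} (G : SimpleGraph (Fin n)) (σ : Equiv.Perm (Fin n)) (t : ℕ) : ℕ :=
  Nat.card (G.induce {v | ((σ.symm v : Fin n) : ℕ) < t}).ConnectedComponent

/-- A stopping algorithm: it assigns to each ordering `σ` a time in `{1, …, n}`, and whether it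
stops at time `t` depends only on `σ 0, …, σ (t-1)`. -/
def IsStopping {n : ℕ} (τ : Equiv.Perm (Fin n) → ℕ) : Prop :=
  (∀ σ, 1 ≤ τ σ ∧ τ σ ≤ n) ∧
    ∀ σ σ' : Equiv.Perm (Fin n), (∀ i : Fin n, (i : ℕ) < τ σ → σ' i = σ i) → τ σ' = τ σ

/-- The expected number of components at the stopping time. -/
noncomputable def value {n : ℕ} (G : SimpleGraph (Fin n)) (τ : Equiv.Perm (Fin n) → ℕ) : ℝ :=
  (∑ σ : Equiv.Perm (Fin n), (CC G σ (τ σ) : ℝ)) / (n.factorial : ℝ)

/-- `m(G)`: the largest expected number of components over all stopping algorithms. -/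
noncomputable def optValue {n : ℕ} (G : SimpleGraph (Fin n)) : ℝ :=
  sSup {r : ℝ | ∃ τ : Equiv.Perm (Fin n) → ℕ, IsStopping τ ∧ r = value G τ}

end Pool.Agent.Work.MP_cfbcde_co
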